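import Mathlib

/-!
# Box products and metacompact spaces
-/

set_option autoImplicit false

namespace Pool.Agent.Helper21.Box

open Set Topology

universe a b

/-- The box product of a family of spaces: the product set, with the topology generated by the
boxes `∏ U i` with every `U i` open. -/
def BoxProd {ι : Type a} (X : ι → Type b) : Type (max a b) := ∀ i, X i

instance boxTopology {ι : Type a} (X : ι → Type b) [∀ i, TopologicalSpace (X i)] :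
    TopologicalSpace (BoxProd X) :=
  TopologicalSpace.generateFrom
    {s | ∃ U : ∀ i, Set (X i), (∀ i, IsOpen (U i)) ∧ s = {x | ∀ i, x i ∈ U i}}

/-- Every open cover has a point-finite open refinement. -/
def Metacompact (X : Type a) [TopologicalSpace X] : Prop :=
  ∀ 𝒰 : Set (Set X), (∀ U ∈ 𝒰, IsOpen U) → ⋃₀ 𝒰 = univ →
    ∃ 𝒱 : Set (Set X), (∀ V ∈ 𝒱, IsOpen V) ∧ ⋃₀ 𝒱 = univ ∧ (∀ V ∈ 𝒱, ∃ U ∈ 𝒰, V ⊆ U) ∧
      ∀ x, {V | V ∈ 𝒱 ∧ x ∈ V}.Finite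

/-- Every open cover has an open refinement that is a countable union of point-finite families. -/
def SigmaMetacompact (X : Type a) [TopologicalSpace X] : Prop :=
  ∀ 𝒰 : Set (Set X), (∀ U ∈ 𝒰, IsOpen U) → ⋃₀ 𝒰 = univ →
    ∃ 𝒱 : ℕ → Set (Set X), (∀ n, ∀ V ∈ 𝒱 n, IsOpen V) ∧ ⋃ n, ⋃₀ 𝒱 n = univ ∧
      (∀ n, ∀ V ∈ 𝒱 n, ∃ U ∈ 𝒰, V ⊆ U) ∧ ∀ n x, {V | V ∈ 𝒱 n ∧ x ∈ V}.Finite

theorem Metacompact.sigma {X : Type a} [TopologicalSpace X] (h : Metacompact X) :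
    SigmaMetacompact X := by
  intro 𝒰 h1 h2
  obtain ⟨𝒱, h3, h4, h5, h6⟩ := h 𝒰 h1 h2
  exact ⟨fun _ => 𝒱, fun _ => h3, by rw [iUnion_const]; exact h4, fun _ => h5, fun _ => h6⟩

theorem isOpen_box {ι : Type a} {X : ι → Type b} [∀ i, TopologicalSpace (X i)]
    {U : ∀ i, Set (X i)} (hU : ∀ i, IsOpen (U i)) :
    IsOpen {x : BoxProd X | ∀ i, x i ∈ U i} :=
  TopologicalSpace.isOpen_generateFrom_of_mem ⟨U, hU, rfl⟩

theorem exists_box {ι : Type a} {X : ι → Type b} [∀ i, TopologicalSpace (X i)]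
    {O : Set (BoxProd X)} (hO : IsOpen O) {x : BoxProd X} (hx : x ∈ O) :
    ∃ U : ∀ i, Set (X i), (∀ i, IsOpen (U i) ∧ x i ∈ U i) ∧
      {y : BoxProd X | ∀ i, y i ∈ U i} ⊆ O := by
  induction hO with
  | basic s hs =>
    obtain ⟨U, hU, rfl⟩ := hs
    exact ⟨U, fun i => ⟨hU i, hx i⟩, subset_rfl⟩
  | univ => exact ⟨fun _ => univ, fun i => ⟨isOpen_univ, mem_univ _⟩, subset_univ _⟩
  | inter s t _ _ ihs iht =>
    obtain ⟨U, hU, hU'⟩ := ihs hx.1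
    obtain ⟨V, hV, hV'⟩ := iht hx.2
    exact ⟨fun i => U i ∩ V i, fun i => ⟨(hU i).1.inter (hV i).1, (hU i).2, (hV i).2⟩,
      fun y hy => ⟨hU' fun i => (hy i).1, hV' fun i => (hy i).2⟩⟩
  | sUnion S _ ih =>
    obtain ⟨s, hs, hxs⟩ := hx
    obtain ⟨U, hU, hU'⟩ := ih s hs hxs
    exact ⟨U, hU, fun y hy => ⟨s, hs, hU' hy⟩⟩

/-- In such a space a closed discrete family of points has an open expansion that is a countable
union of point-finite families. -/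
theorem exists_pointFinite {X : Type a} [TopologicalSpace X] (hX : SigmaMetacompact X)
    {ι : Type b} (c : ι → X)
    (hc : ∀ x, ∃ U, IsOpen U ∧ x ∈ U ∧ ∀ i j, c i ∈ U → c j ∈ U → i = j) :
    ∃ (W : ι → Set X) (ν : ι → ℕ), (∀ i, IsOpen (W i) ∧ c i ∈ W i) ∧
      ∀ n x, {i | ν i = n ∧ x ∈ W i}.Finite := by
  obtain ⟨𝒱, h1, h2, h3, h4⟩ := hX {U | IsOpen U ∧ ∀ i j, c i ∈ U → c j ∈ U → i = j}
    (fun U hU => hU.1) (by
      apply eq_univ_of_forall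
      intro x
      obtain ⟨U, hU1, hU2, hU3⟩ := hc x
      exact ⟨U, ⟨hU1, hU3⟩, hU2⟩)
  have hex : ∀ i, ∃ n, ∃ V ∈ 𝒱 n, c i ∈ V := by
    intro i
    have : c i ∈ ⋃ n, ⋃₀ 𝒱 n := by rw [h2]; exact mem_univ _
    obtain ⟨n, hn⟩ := mem_iUnion.1 this
    exact ⟨n, hn⟩
  choose ν W hW1 hW2 using hex
  refine ⟨W, ν, fun i => ⟨h1 _ _ (hW1 i), hW2 i⟩, fun n x => ?_⟩
  refine Set.Finite.of_finite_image (f := W) ((h4 n x).subset ?_) ?_
  · rintro V ⟨i, ⟨hi1, hi2⟩, rfl⟩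
    exact ⟨hi1 ▸ hW1 i, hi2⟩
  · intro i _ j _ hij
    obtain ⟨U, hU, hVU⟩ := h3 _ _ (hW1 i)
    refine hU.2 i j (hVU (hW2 i)) (hVU ?_)
    rw [hij]; exact hW2 j

end Pool.Agent.Helper21.Box
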