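import Mathlib

/-!
# Partial functions, types and conditions

Combinatorial core of the proof that `ω^ω × □^ω(ω+1)` is not metacompact.

A point of `□^ω(ω+1)` is a partial function `u : ℕ → Option ℕ` (`none` is the limit point `ω`).
Every value has a type, and the types form a tree.
-/

set_option autoImplicit false

namespace Pool.Agent.Helper21.Box

/-- Points of `□^ω(ω+1)` as partial functions. -/
abbrev PF : Type := ℕ → Option ℕ

/-- The type of a value. -/
def ty (v : ℕ) : ℕ := (Nat.unpair v).1

/-- The parent of a type. -/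
def par (n : ℕ) : ℕ := (Nat.unpair n).1

theorem par_lt {n : ℕ} (h : n ≠ 0) : par n < n := Nat.unpair_lt (Nat.pos_of_ne_zero h)

theorem ty_le (v : ℕ) : ty v ≤ v := Nat.unpair_left_le v

/-- The coordinate `d` carries a value of type `n` in `u`. -/
def Has (u : PF) (n d : ℕ) : Prop := ∃ v, u d = some v ∧ ty v = n

/-- True coordinates. -/
def Tr (d : ℕ) : Prop := d % 2 = 1

/-- The type `n` is active in `u`. -/
def Active (u : PF) (n : ℕ) : Prop := n = 0 ∨ ∃ e, Has u (par n) e ∧ Tr e

/-- Admissible partial functions: every type is carried by at most one coordinate, and the types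
that are carried are active. -/
structure Adm (u : PF) : Prop where
  uniq : ∀ n d e, Has u n d → Has u n e → d = e
  act : ∀ n d, Has u n d → Active u n

/-- Infinitely many true and infinitely many false coordinates carry no value. -/
def Coinf (u : PF) : Prop :=
  (∀ N, ∃ d, N ≤ d ∧ Tr d ∧ u d = none) ∧ (∀ N, ∃ d, N ≤ d ∧ ¬ Tr d ∧ u d = none)

/-- Every active type is carried. -/
def Complete (u : PF) : Prop := ∀ n, Active u n → ∃ d, Has u n d

/-- The partial functions that index the closed discrete set. -/
structure Good (u : PF) : Prop where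
  adm : Adm u
  complete : Complete u
  coinf : Coinf u

theorem Has.mono {p u : PF} (h : ∀ d v, p d = some v → u d = some v) {n d : ℕ}
    (H : Has p n d) : Has u n d := by
  obtain ⟨v, hv, hn⟩ := H
  exact ⟨v, h d v hv, hn⟩

theorem Active.mono {p u : PF} (h : ∀ d v, p d = some v → u d = some v) {n : ℕ}
    (H : Active p n) : Active u n := by
  rcases H with H | ⟨e, he, ht⟩
  · exact Or.inl H
  · exact Or.inr ⟨e, he.mono h, ht⟩

/-- A complete admissible function has no proper admissible extension. -/
theorem eq_of_complete {y u : PF} (hy : Complete y) (hu : Adm u)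
    (h : ∀ d v, y d = some v → u d = some v) : u = y := by
  have key : ∀ n d, Has u n d → Has y n d := by
    intro n
    induction n using Nat.strong_induction_on with
    | _ n ih =>
      intro d hd
      have hact : Active y n := by
        rcases hu.act n d hd with h0 | ⟨e, he, ht⟩
        · exact Or.inl h0
        · by_cases h0 : n = 0
          · exact Or.inl h0
          · exact Or.inr ⟨e, ih _ (par_lt h0) e he, ht⟩
      obtain ⟨d', hd'⟩ := hy n hact
      have := hu.uniq n d d' hd (hd'.mono h)
      rw [this]; exact hd'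
  funext d
  rcases hd : u d with _ | v
  · rcases hy' : y d with _ | w
    · rfl
    · rw [h d w hy'] at hd; cases hd
  · obtain ⟨w, hw, _⟩ := key (ty v) d ⟨v, hd, rfl⟩
    rw [h d w hw] at hd
    rw [hw, hd]

/-- Forcing conditions. -/
structure Cond where
  p : PF
  j : ℕ
  h : ℕ → ℕ
  B : Finset ℕ
  adm : Adm p
  coinf : Coinf p
  low : ∀ n, n < j → Active p n → ∃ d, Has p n d
  actj : Active p j
  unused : ∀ d, ¬ Has p j d

/-- The order on conditions. -/
structure Below (Q P : Cond) : Prop where
  ext : ∀ d v, P.p d = some v → Q.p d = some v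
  j : P.j ≤ Q.j
  h : ∀ d, P.h d ≤ Q.h d
  B : P.B ⊆ Q.B
  new : ∀ d v, P.p d = none → Q.p d = some v → d ∉ P.B ∧ P.h d ≤ v

theorem Below.refl (P : Cond) : Below P P where
  ext _ _ h := h
  j := le_rfl
  h _ := le_rfl
  B := Finset.Subset.refl _
  new d v h1 h2 := by rw [h1] at h2; cases h2

theorem Below.trans {R Q P : Cond} (h1 : Below R Q) (h2 : Below Q P) : Below R P where
  ext d v h := h1.ext d v (h2.ext d v h)
  j := h2.j.trans h1.j
  h d := (h2.h d).trans (h1.h d)
  B := h2.B.trans h1.B
  new d v h3 h4 := by
    rcases hq : Q.p d with _ | w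
    · obtain ⟨h5, h6⟩ := h1.new d v hq h4
      exact ⟨fun h => h5 (h2.B h), (h2.h d).trans h6⟩
    · have := h1.ext d w hq
      rw [this] at h4
      obtain rfl : w = v := by simpa using h4
      exact h2.new d w h3 hq

instance : Preorder Cond where
  le := Below
  le_refl := Below.refl
  le_trans _ _ _ h1 h2 := Below.trans h1 h2

theorem le_def {Q P : Cond} : Q ≤ P ↔ Below Q P := Iff.rfl

/-- Good functions that are compatible with the promises of the condition `P`. -/
structure Val (P : Cond) (u : PF) : Prop where
  good : Good u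
  ext : ∀ d v, P.p d = some v → u d = some v
  new : ∀ d v, P.p d = none → u d = some v → d ∉ P.B ∧ P.h d ≤ v

theorem Val.mono {P Q : Cond} {u : PF} (h1 : Val Q u) (h2 : Q ≤ P) : Val P u where
  good := h1.good
  ext d v h := h1.ext d v (h2.ext d v h)
  new d v h3 h4 := by
    rcases hq : Q.p d with _ | w
    · obtain ⟨h5, h6⟩ := h1.new d v hq h4
      exact ⟨fun h => h5 (h2.B h), (h2.h d).trans h6⟩
    · have := h1.ext d w hq
      rw [this] at h4
      obtain rfl : w = v := by simpa using h4
      exact h2.new d w h3 hq

/-- Below `P.j` nothing changes. -/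
theorem has_of_ext {P : Cond} {u : PF} (hu : Adm u) (h : ∀ d v, P.p d = some v → u d = some v) :
    ∀ m, m < P.j → ∀ e, Has u m e → Has P.p m e := by
  intro m
  induction m using Nat.strong_induction_on with
  | _ m ih =>
    intro hm e he
    have hact : Active P.p m := by
      rcases hu.act m e he with h0 | ⟨e', he', ht⟩
      · exact Or.inl h0
      · by_cases h0 : m = 0
        · exact Or.inl h0
        · exact Or.inr ⟨e', ih _ (par_lt h0) ((par_lt h0).trans hm) e' he', ht⟩
    obtain ⟨d, hd⟩ := P.low m hm hact
    have := hu.uniq m d e (hd.mono h) he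
    rw [← this]; exact hd

/-- Changing the side conditions of a condition. -/
def Cond.side (P : Cond) (h : ℕ → ℕ) (B : Finset ℕ) : Cond :=
  { P with h := h, B := B }

theorem side_le {P : Cond} {h : ℕ → ℕ} {B : Finset ℕ} (h1 : ∀ d, P.h d ≤ h d) (h2 : P.B ⊆ B) :
    P.side h B ≤ P where
  ext _ _ h := h
  j := le_rfl
  h := h1
  B := h2
  new d v h1 h2 := by
    have h3 : P.p d = some v := h2
    rw [h1] at h3; cases h3

theorem Coinf.update {p : PF} (hp : Coinf p) (d v : ℕ) : Coinf (Function.update p d (some v)) := by
  constructor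
  · intro N
    obtain ⟨e, h1, h2, h3⟩ := hp.1 (max N (d + 1))
    refine ⟨e, le_trans (le_max_left _ _) h1, h2, ?_⟩
    have : e ≠ d := by have := le_trans (le_max_right N (d + 1)) h1; omega
    rw [Function.update_of_ne this]; exact h3
  · intro N
    obtain ⟨e, h1, h2, h3⟩ := hp.2 (max N (d + 1))
    refine ⟨e, le_trans (le_max_left _ _) h1, h2, ?_⟩
    have : e ≠ d := by have := le_trans (le_max_right N (d + 1)) h1; omega
    rw [Function.update_of_ne this]; exact h3

theorem Coinf.remove {p : PF} (hp : Coinf p) (d : ℕ) : Coinf (Function.update p d none) := by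
  constructor
  · intro N
    obtain ⟨e, h1, h2, h3⟩ := hp.1 N
    refine ⟨e, h1, h2, ?_⟩
    by_cases h : e = d
    · rw [h, Function.update_self]
    · rw [Function.update_of_ne h]; exact h3
  · intro N
    obtain ⟨e, h1, h2, h3⟩ := hp.2 N
    refine ⟨e, h1, h2, ?_⟩
    by_cases h : e = d
    · rw [h, Function.update_self]
    · rw [Function.update_of_ne h]; exact h3

theorem has_update {p : PF} {d v : ℕ} (hd : p d = none) {n e : ℕ} :
    Has (Function.update p d (some v)) n e ↔ Has p n e ∨ (n = ty v ∧ e = d) := by
  constructor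
  · rintro ⟨w, hw, hn⟩
    by_cases he : e = d
    · subst he
      rw [Function.update_self] at hw
      cases hw
      exact Or.inr ⟨hn.symm, rfl⟩
    · rw [Function.update_of_ne he] at hw
      exact Or.inl ⟨w, hw, hn⟩
  · rintro (⟨w, hw, hn⟩ | ⟨hn, he⟩)
    · have he : e ≠ d := by rintro rfl; rw [hd] at hw; cases hw
      exact ⟨w, by rw [Function.update_of_ne he]; exact hw, hn⟩
    · subst he
      exact ⟨v, by rw [Function.update_self], hn.symm⟩

theorem ext_update {p : PF} {d v : ℕ} (hd : p d = none) :
    ∀ e w, p e = some w → Function.update p d (some v) e = some w := by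
  intro e w h
  have he : e ≠ d := by rintro rfl; rw [hd] at h; cases h
  rw [Function.update_of_ne he]; exact h

/-- Adding a value of an active type that is not carried. -/
theorem Adm.update {p : PF} (hp : Adm p) {d v : ℕ} (hd : p d = none) (ha : Active p (ty v))
    (hn : ∀ e, ¬ Has p (ty v) e) : Adm (Function.update p d (some v)) where
  uniq n a b h1 h2 := by
    rw [has_update hd] at h1 h2
    rcases h1 with h1 | ⟨h1, h1'⟩ <;> rcases h2 with h2 | ⟨h2, h2'⟩
    · exact hp.uniq n a b h1 h2
    · subst h2; exact absurd h1 (hn a)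
    · subst h1; exact absurd h2 (hn b)
    · rw [h1', h2']
  act n a h1 := by
    rw [has_update hd] at h1
    rcases h1 with h1 | ⟨h1, h1'⟩
    · exact (hp.act n a h1).mono (ext_update hd)
    · subst h1; exact ha.mono (ext_update hd)

end Pool.Agent.Helper21.Box
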