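import Mathlib
import Pool.Agent.Helper21.Box.Tree

/-!
# Extensions of conditions, limits of chains
-/

set_option autoImplicit false

namespace Pool.Agent.Helper21.Box

open Classical in
/-- A condition from an admissible function with at least one active type that is not carried. -/
noncomputable def mkMin (p : PF) (h : ℕ → ℕ) (B : Finset ℕ) (hp : Adm p) (hc : Coinf p)
    (he : ∃ n, Active p n ∧ ∀ d, ¬ Has p n d) : Cond where
  p := p
  j := Nat.find he
  h := h
  B := B
  adm := hp
  coinf := hc
  low := by
    intro n hn ha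
    have := Nat.find_min he hn
    push Not at this
    exact this ha
  actj := (Nat.find_spec he).1
  unused := (Nat.find_spec he).2

/-- The first new type is larger than every type at most `P.j` as soon as `P.j` is carried. -/
theorem lt_find {P : Cond} {p : PF} (hp : Adm p) (hext : ∀ d v, P.p d = some v → p d = some v)
    (hj : ∃ d, Has p P.j d) {n : ℕ} (ha : Active p n) (hn : ∀ d, ¬ Has p n d) : P.j < n := by
  by_contra hlt
  push Not at hlt
  rcases Nat.lt_or_eq_of_le hlt with h | h
  · have hact : Active P.p n := by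
      rcases ha with h0 | ⟨e, he, ht⟩
      · exact Or.inl h0
      · by_cases h0 : n = 0
        · exact Or.inl h0
        · exact Or.inr ⟨e, has_of_ext hp hext _ ((par_lt h0).trans h) e he, ht⟩
    obtain ⟨d, hd⟩ := P.low n h hact
    exact hn d (hd.mono hext)
  · obtain ⟨d, hd⟩ := hj
    exact hn d (h ▸ hd)

theorem ty_pair (n b : ℕ) : ty (Nat.pair n b) = n := by simp [ty]

theorem par_pair (n b : ℕ) : par (Nat.pair n b) = n := by simp [par]

theorem pair_succ_gt (n b : ℕ) : n < Nat.pair n (b + 1) := by
  have := Nat.add_le_pair n (b + 1)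
  omega

theorem le_pair_right (n b : ℕ) : b ≤ Nat.pair n b := Nat.right_le_pair n b

/-- Extension of a condition by one true coordinate. -/
theorem exists_true (P : Cond) : ∃ (p : PF), Adm p ∧ Coinf p ∧
    (∀ d v, P.p d = some v → p d = some v) ∧
    (∀ d v, P.p d = none → p d = some v → d ∉ P.B ∧ P.h d ≤ v ∧ Tr d) ∧
    (∃ d, Has p P.j d ∧ Tr d) ∧ (∀ n d, Has p n d → Has P.p n d ∨ n = P.j) := by
  obtain ⟨d, h1, h2, h3⟩ := P.coinf.1 (P.B.sup id + 1)
  have hB : d ∉ P.B := by
    intro h
    have := Finset.le_sup (f := id) h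
    simp only [id] at this
    omega
  have hty : ty (Nat.pair P.j (P.h d)) = P.j := ty_pair _ _
  refine ⟨Function.update P.p d (some (Nat.pair P.j (P.h d))), ?_, ?_, ?_, ?_, ?_, ?_⟩
  · exact P.adm.update h3 (by rw [hty]; exact P.actj) (by rw [hty]; exact P.unused)
  · exact P.coinf.update d _
  · exact ext_update h3
  · intro e v he hv
    by_cases hed : e = d
    · subst hed
      rw [Function.update_self] at hv
      obtain rfl : Nat.pair P.j (P.h e) = v := by simpa using hv
      exact ⟨hB, le_pair_right _ _, h2⟩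
    · rw [Function.update_of_ne hed, he] at hv
      cases hv
  · exact ⟨d, (has_update h3).2 (Or.inr ⟨hty.symm, rfl⟩), h2⟩
  · intro n e he
    rw [has_update h3] at he
    rcases he with he | ⟨he, _⟩
    · exact Or.inl he
    · exact Or.inr (he.trans hty)

/-- Extension (E1): the index of a condition can be increased. -/
theorem exists_lt (P : Cond) : ∃ Q : Cond, Q ≤ P ∧ P.j < Q.j := by
  obtain ⟨p, hp, hc, hext, hnew, ⟨d, hd, ht⟩, hhas⟩ := exists_true P
  have hch : ∀ i, Active p (Nat.pair P.j (i + 1)) := fun i =>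
    Or.inr ⟨d, by rw [par_pair]; exact hd, ht⟩
  have hun : ∀ i e, ¬ Has p (Nat.pair P.j (i + 1)) e := by
    intro i e he
    rcases hhas _ _ he with h | h
    · rcases P.adm.act _ _ h with h0 | ⟨e', he', _⟩
      · have := pair_succ_gt P.j i; omega
      · rw [par_pair] at he'; exact P.unused _ he'
    · have := pair_succ_gt P.j i; omega
  have he : ∃ n, Active p n ∧ ∀ d, ¬ Has p n d := ⟨_, hch 0, hun 0⟩
  have hlt : P.j < (mkMin p P.h P.B hp hc he).j :=
    lt_find hp hext ⟨d, hd⟩ (mkMin p P.h P.B hp hc he).actj (mkMin p P.h P.B hp hc he).unused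
  refine ⟨mkMin p P.h P.B hp hc he, ?_, hlt⟩
  exact
    { ext := hext
      j := hlt.le
      h := fun _ => le_rfl
      B := Finset.Subset.refl _
      new := fun e v h1 h2 => ⟨(hnew e v h1 h2).1, (hnew e v h1 h2).2.1⟩ }

/-- Extension (E2): a free false coordinate can be given a value of large type. -/
theorem exists_false (P : Cond) {r : ℕ} (hr : ¬ Tr r) (hrp : P.p r = none) (hrB : r ∉ P.B)
    (b : ℕ) : ∃ Q : Cond, Q ≤ P ∧ ∃ v, Q.p r = some v ∧ b ≤ ty v := by
  obtain ⟨p, hp, hc, hext, hnew, ⟨d, hd, ht⟩, hhas⟩ := exists_true P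
  have hch : ∀ i, Active p (Nat.pair P.j (i + 1)) := fun i =>
    Or.inr ⟨d, by rw [par_pair]; exact hd, ht⟩
  have hun : ∀ i e, ¬ Has p (Nat.pair P.j (i + 1)) e := by
    intro i e he
    rcases hhas _ _ he with h | h
    · rcases P.adm.act _ _ h with h0 | ⟨e', he', _⟩
      · have := pair_succ_gt P.j i; omega
      · rw [par_pair] at he'; exact P.unused _ he'
    · have := pair_succ_gt P.j i; omega
  have hpr : p r = none := by
    rcases hx : p r with _ | v
    · rfl
    · exact absurd (hnew r v hrp hx).2.2 hr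
  -- the value
  set w := Nat.pair P.j (b + 1) with hw
  set v := Nat.pair w (P.h r) with hv
  have hty : ty v = w := ty_pair _ _
  have hp' : Adm (Function.update p r (some v)) :=
    hp.update hpr (by rw [hty]; exact hch b) (by rw [hty]; exact hun b)
  have hc' : Coinf (Function.update p r (some v)) := hc.update r v
  have hext' : ∀ d v', P.p d = some v' → Function.update p r (some v) d = some v' :=
    fun d v' h => ext_update hpr _ _ (hext d v' h)
  have he : ∃ n, Active (Function.update p r (some v)) n ∧
      ∀ d, ¬ Has (Function.update p r (some v)) n d := by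
    refine ⟨Nat.pair P.j (b + 2), (hch (b + 1)).mono (ext_update hpr), ?_⟩
    intro e he
    rw [has_update hpr] at he
    rcases he with he | ⟨he, _⟩
    · exact hun _ _ he
    · rw [hty, hw] at he
      have := (Nat.pair_eq_pair.1 he).2
      omega
  have hj : ∃ d, Has (Function.update p r (some v)) P.j d := ⟨d, hd.mono (ext_update hpr)⟩
  have hlt : P.j < (mkMin _ P.h P.B hp' hc' he).j :=
    lt_find hp' hext' hj (mkMin _ P.h P.B hp' hc' he).actj (mkMin _ P.h P.B hp' hc' he).unused
  refine ⟨mkMin _ P.h P.B hp' hc' he, ?_, v, ?_, ?_⟩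
  · exact
      { ext := hext'
        j := hlt.le
        h := fun _ => le_rfl
        B := Finset.Subset.refl _
        new := by
          intro e v' h1 h2
          have h3 : Function.update p r (some v) e = some v' := h2
          by_cases her : e = r
          · subst her
            rw [Function.update_self] at h3
            obtain rfl : v = v' := by simpa using h3
            exact ⟨hrB, le_pair_right _ _⟩
          · rw [Function.update_of_ne her] at h3
            exact ⟨(hnew e v' h1 h3).1, (hnew e v' h1 h3).2.1⟩ }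
  · show Function.update p r (some v) r = some v
    rw [Function.update_self]
  · rw [hty, hw]
    have := le_pair_right P.j (b + 1)
    omega

theorem has_remove {u : PF} {r n e : ℕ} :
    Has (Function.update u r none) n e ↔ Has u n e ∧ e ≠ r := by
  constructor
  · rintro ⟨w, hw, hn⟩
    have he : e ≠ r := by rintro rfl; rw [Function.update_self] at hw; cases hw
    rw [Function.update_of_ne he] at hw
    exact ⟨⟨w, hw, hn⟩, he⟩
  · rintro ⟨⟨w, hw, hn⟩, he⟩
    exact ⟨w, by rw [Function.update_of_ne he]; exact hw, hn⟩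

theorem active_remove {u : PF} {r n : ℕ} (hr : ¬ Tr r) :
    Active (Function.update u r none) n ↔ Active u n := by
  constructor
  · rintro (h | ⟨e, he, ht⟩)
    · exact Or.inl h
    · exact Or.inr ⟨e, (has_remove.1 he).1, ht⟩
  · rintro (h | ⟨e, he, ht⟩)
    · exact Or.inl h
    · refine Or.inr ⟨e, has_remove.2 ⟨he, ?_⟩, ht⟩
      rintro rfl; exact hr ht

/-- Extension (E3): the condition obtained from a good function by removing a false coordinate. -/
def cut (u : PF) (r v : ℕ) (h : ℕ → ℕ) (B : Finset ℕ) (hu : Good u) (hr : ¬ Tr r)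
    (hv : u r = some v) : Cond where
  p := Function.update u r none
  j := ty v
  h := h
  B := B
  adm :=
    { uniq := fun n d e h1 h2 => hu.adm.uniq n d e (has_remove.1 h1).1 (has_remove.1 h2).1
      act := fun n d h1 => (active_remove hr).2 (hu.adm.act n d (has_remove.1 h1).1) }
  coinf := hu.coinf.remove r
  low := by
    intro n hn ha
    obtain ⟨d, hd⟩ := hu.complete n ((active_remove hr).1 ha)
    refine ⟨d, has_remove.2 ⟨hd, ?_⟩⟩
    rintro rfl
    obtain ⟨w, hw, hw'⟩ := hd
    rw [hv] at hw
    obtain rfl : v = w := by simpa using hw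
    omega
  actj := (active_remove hr).2 (hu.adm.act _ r ⟨v, hv, rfl⟩)
  unused := by
    intro d hd
    obtain ⟨h1, h2⟩ := has_remove.1 hd
    exact h2 (hu.adm.uniq _ d r h1 ⟨v, hv, rfl⟩)

/-- `u` is the limit (union) of the chain `c`. -/
def IsLim (c : ℕ → Cond) (u : PF) : Prop :=
  (∀ i d v, (c i).p d = some v → u d = some v) ∧ ∀ d v, u d = some v → ∃ i, (c i).p d = some v

theorem chain_le {c : ℕ → Cond} (hc : ∀ i, c (i + 1) ≤ c i) {i k : ℕ} (h : i ≤ k) : c k ≤ c i :=
  antitone_nat_of_succ_le hc h

theorem exists_lim {c : ℕ → Cond} (hc : ∀ i, c (i + 1) ≤ c i) : ∃ u, IsLim c u := by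
  classical
  have key : ∀ i k d v w, (c i).p d = some v → (c k).p d = some w → v = w := by
    intro i k d v w h1 h2
    have h3 := (chain_le hc (le_max_left i k)).ext d v h1
    have h4 := (chain_le hc (le_max_right i k)).ext d w h2
    rw [h3] at h4
    simpa using h4
  refine ⟨fun d => if h : ∃ v i, (c i).p d = some v then some (Classical.choose h) else none,
    ?_, ?_⟩
  · intro i d v h
    have hex : ∃ v i, (c i).p d = some v := ⟨v, i, h⟩
    simp only [dif_pos hex]
    obtain ⟨k, hk⟩ := Classical.choose_spec hex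
    rw [key k i d _ _ hk h]
  · intro d v h
    by_cases hex : ∃ v i, (c i).p d = some v
    · simp only [dif_pos hex] at h
      obtain ⟨k, hk⟩ := Classical.choose_spec hex
      refine ⟨k, ?_⟩
      rw [hk]; exact h
    · simp only [dif_neg hex] at h
      cases h

/-- The limit of a chain with unbounded indices. -/
theorem good_of_lim {c : ℕ → Cond} (hc : ∀ i, c (i + 1) ≤ c i) (hj : ∀ N, ∃ i, N ≤ (c i).j)
    {u : PF} (hu : IsLim c u) (hinf : Coinf u) : Good u := by
  have hlift : ∀ n d, Has u n d → ∃ i, Has (c i).p n d := by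
    rintro n d ⟨v, hv, hn⟩
    obtain ⟨i, hi⟩ := hu.2 d v hv
    exact ⟨i, v, hi, hn⟩
  have hmono : ∀ {i k n d}, i ≤ k → Has (c i).p n d → Has (c k).p n d := by
    intro i k n d h H
    exact H.mono (chain_le hc h).ext
  refine ⟨⟨?_, ?_⟩, ?_, hinf⟩
  · intro n d e h1 h2
    obtain ⟨i, hi⟩ := hlift n d h1
    obtain ⟨k, hk⟩ := hlift n e h2
    exact (c (max i k)).adm.uniq n d e (hmono (le_max_left _ _) hi) (hmono (le_max_right _ _) hk)
  · intro n d h1
    obtain ⟨i, hi⟩ := hlift n d h1
    exact ((c i).adm.act n d hi).mono (hu.1 i)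
  · intro n hn
    have hact : ∃ i, Active (c i).p n := by
      rcases hn with h | ⟨e, he, ht⟩
      · exact ⟨0, Or.inl h⟩
      · obtain ⟨i, hi⟩ := hlift _ e he
        exact ⟨i, Or.inr ⟨e, hi, ht⟩⟩
    obtain ⟨i, hi⟩ := hact
    obtain ⟨k, hk⟩ := hj (n + 1)
    have hka : Active (c (max i k)).p n := hi.mono (chain_le hc (le_max_left _ _)).ext
    have hkj : n < (c (max i k)).j := by
      have := (chain_le hc (le_max_right i k)).j
      omega
    obtain ⟨d, hd⟩ := (c (max i k)).low n hkj hka
    exact ⟨d, hd.mono (hu.1 _)⟩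

/-- The limit of a chain is compatible with the conditions above the chain. -/
theorem val_of_lim {c : ℕ → Cond} (hc : ∀ i, c (i + 1) ≤ c i) {u : PF} (hu : IsLim c u)
    (hg : Good u) {P : Cond} {i : ℕ} (hP : c i ≤ P) : Val P u := by
  refine ⟨hg, fun d v h => hu.1 i d v (hP.ext d v h), ?_⟩
  intro d v h1 h2
  obtain ⟨k, hk⟩ := hu.2 d v h2
  have h3 : c (max i k) ≤ P := (chain_le hc (le_max_left i k)).trans hP
  exact h3.new d v h1 ((chain_le hc (le_max_right i k)).ext d v hk)

end Pool.Agent.Helper21.Box
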