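import Mathlib
import Pool.Agent.Helper21.Box.Ext

/-!
# The ideal of small sets below a condition
-/

set_option autoImplicit false

namespace Pool.Agent.Helper21.Box

/-- `D` is dense below `P`. -/
def DenseBelow (D : Set Cond) (P : Cond) : Prop := ∀ Q, Q ≤ P → ∃ R, R ≤ Q ∧ R ∈ D

/-- `V` is small below `P`: there are countably many dense sets such that the limits of chains
through them are not in `V`. -/
def Small (P : Cond) (V : Set PF) : Prop :=
  ∃ D : ℕ → Set Cond, (∀ i, DenseBelow (D i) P) ∧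
    ∀ c : ℕ → Cond, (∀ i, c i ≤ P) → (∀ i, c (i + 1) ≤ c i) → (∀ i, c i ∈ D i) →
      (∀ N, ∃ i, N ≤ (c i).j) → ∀ u, IsLim c u → u ∉ V

theorem Small.mono {P Q : Cond} {V W : Set PF} (h : Small P V) (h1 : Q ≤ P) (h2 : W ⊆ V) :
    Small Q W := by
  obtain ⟨D, hD, hc⟩ := h
  refine ⟨D, fun i R hR => hD i R (hR.trans h1), ?_⟩
  intro c c1 c2 c3 c4 u hu hW
  exact hc c (fun i => (c1 i).trans h1) c2 c3 c4 u hu (h2 hW)

theorem IsLim.sub {c : ℕ → Cond} {u : PF} (hc : ∀ i, c (i + 1) ≤ c i) (hu : IsLim c u)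
    {f : ℕ → ℕ} (hf : StrictMono f) : IsLim (fun i => c (f i)) u := by
  refine ⟨fun i d v h => hu.1 (f i) d v h, ?_⟩
  intro d v h
  obtain ⟨i, hi⟩ := hu.2 d v h
  exact ⟨i, (chain_le hc (hf.id_le i)).ext d v hi⟩

/-- Countable unions of small sets are small. -/
theorem small_iUnion {P : Cond} {V : ℕ → Set PF} (h : ∀ n, Small P (V n)) :
    Small P (⋃ n, V n) := by
  choose D hD hc using h
  refine ⟨fun m => D (Nat.unpair m).1 (Nat.unpair m).2, fun m => hD _ _, ?_⟩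
  intro c c1 c2 c3 c4 u hu hW
  obtain ⟨n, hn⟩ := Set.mem_iUnion.1 hW
  have hf : StrictMono (fun i => Nat.pair n i) := fun a b hab => Nat.pair_lt_pair_right n hab
  refine hc n (fun i => c (Nat.pair n i)) (fun i => c1 _) ?_ ?_ ?_ u (hu.sub c2 hf) hn
  · intro i
    exact chain_le c2 (hf (Nat.lt_succ_self i)).le
  · intro i
    have := c3 (Nat.pair n i)
    simpa using this
  · intro N
    obtain ⟨i, hi⟩ := c4 N
    exact ⟨i, hi.trans (chain_le c2 (hf.id_le i)).j⟩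

/-- Smallness is decided on a dense set. -/
theorem small_of_dense {P : Cond} {V : Set PF} (H : ∀ Q, Q ≤ P → ∃ R, R ≤ Q ∧ Small R V) :
    Small P V := by
  classical
  let S : Set (Set Cond) := {A | (∀ R ∈ A, R ≤ P ∧ Small R V) ∧
    ∀ R ∈ A, ∀ R' ∈ A, ∀ T, T ≤ R → T ≤ R' → R = R'}
  obtain ⟨A, hA⟩ := zorn_subset S (by
    intro c hcS hc
    refine ⟨⋃₀ c, ⟨?_, ?_⟩, fun s hs => Set.subset_sUnion_of_mem hs⟩
    · rintro R ⟨s, hs, hR⟩
      exact (hcS hs).1 R hR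
    · rintro R ⟨s, hs, hR⟩ R' ⟨s', hs', hR'⟩ T h1 h2
      rcases hc.total hs hs' with h | h
      · exact (hcS hs').2 R (h hR) R' hR' T h1 h2
      · exact (hcS hs).2 R hR R' (h hR') T h1 h2)
  have hA1 := hA.prop.1
  have hA2 := hA.prop.2
  -- every condition below `P` is compatible with an element of `A`
  have hpre : ∀ Q, Q ≤ P → ∃ T, T ≤ Q ∧ ∃ R ∈ A, T ≤ R := by
    intro Q hQ
    obtain ⟨R, hR, hsm⟩ := H Q hQ
    by_contra hno
    push Not at hno
    have hins : insert R A ∈ S := by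
      refine ⟨?_, ?_⟩
      · rintro R' (rfl | hR')
        · exact ⟨hR.trans hQ, hsm⟩
        · exact hA1 R' hR'
      · rintro R1 (rfl | h1) R2 (rfl | h2) T hT1 hT2
        · rfl
        · exact absurd hT2 (hno T (hT1.trans hR) R2 h2)
        · exact absurd hT1 (hno T (hT2.trans hR) R1 h1)
        · exact hA2 R1 h1 R2 h2 T hT1 hT2
    have hsub : insert R A ⊆ A := hA.le_of_ge hins (Set.subset_insert R A)
    exact hno R hR R (hsub (Set.mem_insert R A)) le_rfl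
  have hch : ∀ R : Cond, ∃ D : ℕ → Set Cond, R ∈ A → (∀ i, DenseBelow (D i) R) ∧
    ∀ c : ℕ → Cond, (∀ i, c i ≤ R) → (∀ i, c (i + 1) ≤ c i) → (∀ i, c i ∈ D i) →
      (∀ N, ∃ i, N ≤ (c i).j) → ∀ u, IsLim c u → u ∉ V := by
    intro R
    by_cases hR : R ∈ A
    · obtain ⟨D, hD⟩ := (hA1 R hR).2
      exact ⟨D, fun _ => hD⟩
    · exact ⟨fun _ => ∅, fun h => absurd h hR⟩
  choose D hD using hch
  refine ⟨fun i => {Q | ∃ R ∈ A, Q ≤ R ∧ Q ∈ D R i}, ?_, ?_⟩
  · intro i Q hQ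
    obtain ⟨T, hT, R, hR, hTR⟩ := hpre Q hQ
    obtain ⟨T', hT', hmem⟩ := (hD R hR).1 i T hTR
    exact ⟨T', hT'.trans hT, R, hR, hT'.trans hTR, hmem⟩
  · intro c c1 c2 c3 c4 u hu
    obtain ⟨R, hR, hcR, hcD⟩ := c3 0
    have hall : ∀ i, c i ≤ R ∧ c i ∈ D R i := by
      intro i
      obtain ⟨R', hR', hcR', hcD'⟩ := c3 i
      have hi : c i ≤ R := (chain_le c2 (Nat.zero_le i)).trans hcR
      have := hA2 R hR R' hR' (c i) hi hcR'
      subst this
      exact ⟨hi, hcD'⟩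
    exact (hD R hR).2 c (fun i => (hall i).1) c2 (fun i => (hall i).2) c4 u hu

/-- The set of all good functions is not small. -/
theorem not_small_good (P : Cond) : ¬ Small P {u | Good u} := by
  rintro ⟨D, hD, hc⟩
  have hstep : ∀ (i : ℕ) (Q : {Q : Cond // Q ≤ P}), ∃ R : {Q : Cond // Q ≤ P}, R.1 ≤ Q.1 ∧
      R.1 ∈ D i ∧ Q.1.j < R.1.j ∧
      (∃ a, i ≤ a ∧ Tr a ∧ a ∈ R.1.B ∧ R.1.p a = none) ∧
      (∃ a, i ≤ a ∧ ¬ Tr a ∧ a ∈ R.1.B ∧ R.1.p a = none) := by
    rintro i ⟨Q, hQ⟩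
    obtain ⟨a, ha1, ha2, ha3⟩ := Q.coinf.1 i
    obtain ⟨b, hb1, hb2, hb3⟩ := Q.coinf.2 i
    set Q1 := Q.side Q.h (insert a (insert b Q.B)) with hQ1
    have hQ1le : Q1 ≤ Q := side_le (fun _ => le_rfl)
      ((Finset.subset_insert _ _).trans (Finset.subset_insert _ _))
    obtain ⟨Q2, hQ2, hj2⟩ := exists_lt Q1
    obtain ⟨Q3, hQ3, hmem⟩ := hD i Q2 ((hQ2.trans hQ1le).trans hQ)
    have h31 : Q3 ≤ Q1 := hQ3.trans hQ2
    have haB : a ∈ Q1.B := Finset.mem_insert_self _ _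
    have hbB : b ∈ Q1.B := Finset.mem_insert_of_mem (Finset.mem_insert_self _ _)
    have hnone : ∀ x, x ∈ Q1.B → Q1.p x = none → Q3.p x = none := by
      intro x hx hx'
      rcases hy : Q3.p x with _ | v
      · rfl
      · exact absurd hx (h31.new x v hx' hy).1
    refine ⟨⟨Q3, (h31.trans hQ1le).trans hQ⟩, h31.trans hQ1le, hmem, ?_, ?_, ?_⟩
    · have h1 : Q1.j = Q.j := rfl
      have h2 := hQ3.j
      show Q.j < Q3.j
      omega
    · exact ⟨a, ha1, ha2, h31.B haB, hnone a haB ha3⟩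
    · exact ⟨b, hb1, hb2, h31.B hbB, hnone b hbB hb3⟩
  choose F hF1 hF2 hF3 hF4 hF5 using hstep
  let s : ℕ → {Q : Cond // Q ≤ P} := fun n => Nat.rec (F 0 ⟨P, le_rfl⟩) (fun n t => F (n + 1) t) n
  have hs0 : s 0 = F 0 ⟨P, le_rfl⟩ := rfl
  have hs1 : ∀ n, s (n + 1) = F (n + 1) (s n) := fun n => rfl
  have hD' : ∀ i, (s i).1 ∈ D i := by
    intro i
    cases i with
    | zero => rw [hs0]; exact hF2 _ _
    | succ n => rw [hs1]; exact hF2 _ _
  have h4 : ∀ i, (∃ a, i ≤ a ∧ Tr a ∧ a ∈ (s i).1.B ∧ (s i).1.p a = none) := by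
    intro i
    cases i with
    | zero => rw [hs0]; exact hF4 _ _
    | succ n => rw [hs1]; exact hF4 _ _
  have h5 : ∀ i, (∃ a, i ≤ a ∧ ¬ Tr a ∧ a ∈ (s i).1.B ∧ (s i).1.p a = none) := by
    intro i
    cases i with
    | zero => rw [hs0]; exact hF5 _ _
    | succ n => rw [hs1]; exact hF5 _ _
  have hdec : ∀ i, (s (i + 1)).1 ≤ (s i).1 := by
    intro i; rw [hs1]; exact hF1 _ _
  have hjm : ∀ N, N ≤ (s N).1.j := by
    intro N
    induction N with
    | zero => exact Nat.zero_le _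
    | succ n ih =>
      have := hF3 (n + 1) (s n)
      rw [← hs1] at this
      omega
  obtain ⟨u, hu⟩ := exists_lim (c := fun i => (s i).1) hdec
  have hnone : ∀ i a, a ∈ (s i).1.B → (s i).1.p a = none → u a = none := by
    intro i a ha hp
    rcases hy : u a with _ | v
    · rfl
    · obtain ⟨k, hk⟩ := hu.2 a v hy
      have h1 : (s (max i k)).1 ≤ (s i).1 := chain_le (c := fun i => (s i).1) hdec (le_max_left i k)
      have h2 : (s (max i k)).1 ≤ (s k).1 := chain_le (c := fun i => (s i).1) hdec (le_max_right i k)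
      exact absurd ha (h1.new a v hp (h2.ext a v hk)).1
  have hinf : Coinf u := by
    constructor
    · intro N
      obtain ⟨a, h1, h2, h3, h4'⟩ := h4 N
      exact ⟨a, h1, h2, hnone N a h3 h4'⟩
    · intro N
      obtain ⟨a, h1, h2, h3, h4'⟩ := h5 N
      exact ⟨a, h1, h2, hnone N a h3 h4'⟩
  exact hc (fun i => (s i).1) (fun i => (s i).2) hdec hD' (fun N => ⟨N, hjm N⟩) u hu
    (good_of_lim (c := fun i => (s i).1) hdec (fun N => ⟨N, hjm N⟩) hu hinf)

/-- `V` is not small below any extension of `P`. -/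
def Big (P : Cond) (V : Set PF) : Prop := ∀ Q, Q ≤ P → ¬ Small Q V

theorem exists_big {P : Cond} {V : Set PF} (h : ¬ Small P V) : ∃ Q, Q ≤ P ∧ Big Q V := by
  by_contra hno
  push Not at hno
  apply h
  apply small_of_dense
  intro Q hQ
  have := hno Q hQ
  unfold Big at this
  push Not at this
  exact this

end Pool.Agent.Helper21.Box
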