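import Mathlib
import Pool.Agent.Helper21.Box.Ideal

/-!
# The step lemma
-/

set_option autoImplicit false

namespace Pool.Agent.Helper21.Box

/-- First half of the step lemma. -/
theorem exists_coord (k : PF → ℕ) {P : Cond} {V : Set PF} (hV : ∀ u ∈ V, Good u)
    (hbig : Big P V) : ∃ r, ¬ Tr r ∧ ∃ P' : Cond, P' ≤ P ∧ P'.p r = none ∧ r ∉ P'.B ∧
      ∀ P'' : Cond, P'' ≤ P' → P''.p r = none → r ∉ P''.B → ∀ b, ∃ u ∈ V, Val P'' u ∧
        ∃ w, u r = some w ∧ b ≤ ty w ∧ k u ≤ ty w := by
  by_contra hno
  push Not at hno
  apply hbig P le_rfl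
  refine ⟨fun i => {Q | ∃ (r : ℕ) (P'' : Cond) (b : ℕ), Q ≤ P'' ∧
    (∃ v, Q.p r = some v ∧ b ≤ ty v ∧ i ≤ ty v) ∧
    ∀ u ∈ V, Val P'' u → ∀ w, u r = some w → b ≤ ty w → ty w < k u}, ?_, ?_⟩
  · intro i Q hQ
    obtain ⟨r, h1, h2, h3⟩ := Q.coinf.2 (Q.B.sup id + 1)
    have hB : r ∉ Q.B := by
      intro h
      have := Finset.le_sup (f := id) h
      simp only [id] at this
      omega
    obtain ⟨P'', hP'', hp, hB', b, hb⟩ := hno r h2 Q hQ h3 hB
    obtain ⟨R, hR, v, hv, hbv⟩ := exists_false P'' h2 hp hB' (max b i)
    exact ⟨R, hR.trans hP'', r, P'', b, hR, ⟨v, hv, (le_max_left _ _).trans hbv,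
      (le_max_right _ _).trans hbv⟩, hb⟩
  · intro c c1 c2 c3 c4 z hz hzV
    obtain ⟨r, P'', b, h1, ⟨v, h2, h3, h4⟩, h5⟩ := c3 (k z)
    have hval : Val P'' z := val_of_lim c2 hz (hV z hzV) h1
    have := h5 z hzV hval v (hz.1 _ _ _ h2) h3
    omega

/-- The step lemma. -/
theorem step (k : PF → ℕ) (g : PF → ℕ → ℕ) {P : Cond} {V : Set PF} (hV : ∀ u ∈ V, Good u)
    (hbig : Big P V) : ∃ (u : PF) (r v : ℕ) (hu : Good u) (hr : ¬ Tr r) (hv : u r = some v),
      u ∈ V ∧ Val P u ∧ P.p r = none ∧ k u ≤ ty v ∧ P.j < ty v ∧
      ∃ Q, Q ≤ cut u r v (fun d => max (P.h d) (g u d)) (insert r P.B) hu hr hv ∧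
        Big Q (V ∩ {z | z r = none ∧ g z r ≤ v}) := by
  by_contra hno
  push Not at hno
  have star : ∀ (u : PF) (r v : ℕ) (hu : Good u) (hr : ¬ Tr r) (hv : u r = some v),
      u ∈ V → Val P u → P.p r = none → k u ≤ ty v → P.j < ty v →
      Small (cut u r v (fun d => max (P.h d) (g u d)) (insert r P.B) hu hr hv)
        (V ∩ {z | z r = none ∧ g z r ≤ v}) := by
    intro u r v hu hr hv h1 h2 h3 h4 h5
    by_contra hs
    obtain ⟨Q, hQ, hQbig⟩ := exists_big hs
    exact hno u r v hu hr hv h1 h2 h3 h4 h5 Q hQ hQbig
  obtain ⟨r, hr, P', hP', hp', hB', hex⟩ := exists_coord k hV hbig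
  -- the condition in which the coordinate `r` is forbidden
  set Pm := P'.side P'.h (insert r P'.B) with hPm
  have hPmle : Pm ≤ P' := side_le (fun _ => le_rfl) (Finset.subset_insert _ _)
  have hsmall : ∀ i, Small Pm {z | z ∈ V ∧ z r = none ∧ g z r ≤ i} := by
    intro i
    apply small_of_dense
    intro Q hQ
    have hQr : Q.p r = none := by
      rcases hy : Q.p r with _ | v
      · rfl
      · exact absurd (Finset.mem_insert_self _ _) (hQ.new r v hp' hy).1
    set Qp := Q.side Q.h (Q.B.erase r) with hQp
    have hB2 : P'.B ⊆ Q.B.erase r := by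
      intro a ha
      refine Finset.mem_erase.2 ⟨?_, hQ.B (Finset.mem_insert_of_mem ha)⟩
      rintro rfl; exact hB' ha
    have hQpP : Qp ≤ P' := by
      exact
        { ext := hQ.ext
          j := hQ.j
          h := hQ.h
          B := hB2
          new := fun d v h1 h2 => ⟨fun h => (hQ.new d v h1 h2).1 (Finset.mem_insert_of_mem h),
            (hQ.new d v h1 h2).2⟩ }
    obtain ⟨u, huV, hval, w, hw, hbw, hkw⟩ := hex Qp hQpP hQr (Finset.notMem_erase r Q.B)
      (max i (Q.j + 1))
    have hgu : Good u := hval.good
    have hjw : Q.j < ty w := by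
      have := (le_max_right i (Q.j + 1)).trans hbw
      omega
    have hiw : i ≤ w := ((le_max_left i (Q.j + 1)).trans hbw).trans (ty_le w)
    have hQP : Q ≤ P := hQ.trans (hPmle.trans hP')
    have hvalP : Val P u := hval.mono (hQpP.trans hP')
    have hPr : P.p r = none := by
      rcases hy : P.p r with _ | v
      · rfl
      · have := hP'.ext r v hy
        rw [hp'] at this; cases this
    have hjP : P.j < ty w := lt_of_le_of_lt hQP.j hjw
    have hs := star u r w hgu hr hw huV hvalP hPr hkw hjP
    set R := cut u r w (fun d => max (Q.h d) (g u d)) Q.B hgu hr hw with hR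
    have hrB : r ∈ Q.B := hQ.B (Finset.mem_insert_self _ _)
    have hRQ : R ≤ Q := by
      exact
        { ext := by
            intro d v hd
            have hdr : d ≠ r := by rintro rfl; rw [hQr] at hd; cases hd
            show Function.update u r none d = some v
            rw [Function.update_of_ne hdr]
            exact hval.ext d v hd
          j := hjw.le
          h := fun d => le_max_left _ _
          B := Finset.Subset.refl _
          new := by
            intro d v h1 h2
            have h3 : Function.update u r none d = some v := h2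
            have hdr : d ≠ r := by
              rintro rfl; rw [Function.update_self] at h3; cases h3
            rw [Function.update_of_ne hdr] at h3
            obtain ⟨h4, h5⟩ := hval.new d v h1 h3
            exact ⟨fun h => h4 (Finset.mem_erase.2 ⟨hdr, h⟩), h5⟩ }
    have hRcut : R ≤ cut u r w (fun d => max (P.h d) (g u d)) (insert r P.B) hgu hr hw := by
      exact
        { ext := fun d v hd => hd
          j := le_rfl
          h := fun d => max_le_max (hQP.h d) le_rfl
          B := by
            intro a ha
            rcases Finset.mem_insert.1 ha with rfl | ha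
            · exact hrB
            · exact hQP.B ha
          new := by
            intro d v h1 h2
            have h3 : Function.update u r none d = some v := h2
            have h4 : Function.update u r none d = none := h1
            rw [h3] at h4; cases h4 }
    refine ⟨R, hRQ, hs.mono hRcut ?_⟩
    rintro z ⟨hz1, hz2, hz3⟩
    exact ⟨hz1, hz2, hz3.trans hiw⟩
  apply hbig Pm (hPmle.trans hP')
  obtain ⟨D, hD, hc⟩ := small_iUnion hsmall
  refine ⟨D, hD, ?_⟩
  intro c c1 c2 c3 c4 z hz hzV
  apply hc c c1 c2 c3 c4 z hz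
  refine Set.mem_iUnion.2 ⟨g z r, hzV, ?_, le_rfl⟩
  rcases hy : z r with _ | v
  · rfl
  · obtain ⟨i, hi⟩ := hz.2 r v hy
    exact absurd (Finset.mem_insert_self _ _) ((c1 i).new r v hp' hi).1

/-- The value of type `n` in `u`, and `0` if there is none. -/
noncomputable def val (u : PF) (n : ℕ) : ℕ := by
  classical
  exact if h : ∃ v, (∃ d, u d = some v) ∧ ty v = n then Classical.choose h else 0

theorem val_eq {u : PF} (hu : Adm u) {n d v : ℕ} (h : u d = some v) (hv : ty v = n) :
    val u n = v := by
  have hex : ∃ v, (∃ d, u d = some v) ∧ ty v = n := ⟨v, ⟨d, h⟩, hv⟩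
  unfold val
  rw [dif_pos hex]
  obtain ⟨⟨e, he⟩, ht⟩ := Classical.choose_spec hex
  have := hu.uniq n d e ⟨v, h, hv⟩ ⟨_, he, ht⟩
  subst this
  rw [h] at he
  exact (Option.some.inj he).symm

theorem val_zero {u : PF} {n : ℕ} (h : ∀ d, ¬ Has u n d) : val u n = 0 := by
  have hex : ¬ ∃ v, (∃ d, u d = some v) ∧ ty v = n := by
    rintro ⟨v, ⟨d, hd⟩, hv⟩
    exact h d ⟨v, hd, hv⟩
  unfold val
  rw [dif_neg hex]

/-- Combinatorial core: whatever the numbers `k u`, `g u d` and the classes `ν u` are, there is an
infinite sequence of good functions of one class with a common point. -/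
theorem core (ν : PF → ℕ) (k : PF → ℕ) (g : PF → ℕ → ℕ) :
    ∃ (u : ℕ → PF) (x : ℕ → ℕ) (y : PF) (m : ℕ), Function.Injective u ∧ (∀ n, ν (u n) = m) ∧
      ∀ n, Good (u n) ∧ (∀ i, i < k (u n) → x i = val (u n) i) ∧
      (∀ d v, u n d = some v → y d = some v) ∧
      (∀ d v, u n d = none → y d = some v → g (u n) d ≤ v) := by
  classical
  -- the states of the construction
  let St : Type := {s : Cond × Set PF // (∀ u ∈ s.2, Good u) ∧ Big s.1 s.2}
  have hstep : ∀ s : St, ∃ (s' : St) (u : PF) (r v : ℕ) (hu : Good u) (hr : ¬ Tr r)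
      (hv : u r = some v), u ∈ s.1.2 ∧ Val s.1.1 u ∧ s.1.1.p r = none ∧ k u ≤ ty v ∧
      s.1.1.j < ty v ∧
      s'.1.1 ≤ cut u r v (fun d => max (s.1.1.h d) (g u d)) (insert r s.1.1.B) hu hr hv ∧
      s'.1.2 = s.1.2 ∩ {z | z r = none ∧ g z r ≤ v} := by
    rintro ⟨⟨P, V⟩, hV, hbig⟩
    obtain ⟨u, r, v, hu, hr, hv, h1, h2, h3, h4, h5, Q, hQ, hQbig⟩ := step k g hV hbig
    exact ⟨⟨(Q, V ∩ {z | z r = none ∧ g z r ≤ v}), fun z hz => hV z hz.1, hQbig⟩,
      u, r, v, hu, hr, hv, h1, h2, h3, h4, h5, hQ, rfl⟩
  choose F U R W hU hR hW h1 h2 h3 h4 h5 h6 h7 using hstep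
  have hempty : ∀ n d, ¬ Has (fun _ => none) n d := by
    rintro n d ⟨v, hv, _⟩; cases hv
  let P0 : Cond :=
    { p := fun _ => none
      j := 0
      h := fun _ => 0
      B := ∅
      adm := ⟨fun n d e h => absurd h (hempty n d), fun n d h => absurd h (hempty n d)⟩
      coinf := ⟨fun N => ⟨2 * N + 1, by omega, by unfold Tr; omega, rfl⟩,
        fun N => ⟨2 * N, by omega, by unfold Tr; omega, rfl⟩⟩
      low := fun n hn => absurd hn (Nat.not_lt_zero n)
      actj := Or.inl rfl
      unused := fun d => hempty 0 d }
  obtain ⟨cl, hcl⟩ : ∃ m, ¬ Small P0 {u | Good u ∧ ν u = m} := by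
    by_contra hno
    push Not at hno
    apply not_small_good P0
    refine (small_iUnion hno).mono le_rfl ?_
    intro u hu
    exact Set.mem_iUnion.2 ⟨ν u, hu, rfl⟩
  obtain ⟨Q0, _, hQ0⟩ := exists_big hcl
  let s0 : St := ⟨(Q0, {u | Good u ∧ ν u = cl}), fun u hu => hu.1, hQ0⟩
  let s : ℕ → St := fun n => Nat.rec s0 (fun _ t => F t) n
  have hs : ∀ n, s (n + 1) = F (s n) := fun n => rfl
  -- notation for the data at stage `n`
  let u : ℕ → PF := fun n => U (s n)
  let r : ℕ → ℕ := fun n => R (s n)
  let w : ℕ → ℕ := fun n => W (s n)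
  have hcut : ∀ n, (cut (u n) (r n) (w n) (fun d => max ((s n).1.1.h d) (g (u n) d))
      (insert (r n) (s n).1.1.B) (hU (s n)) (hR (s n)) (hW (s n))) ≤ (s n).1.1 := by
    intro n
    exact
      { ext := by
          intro d v hd
          have hdr : d ≠ r n := by
            rintro rfl; rw [show (s n).1.1.p (r n) = none from h3 (s n)] at hd; cases hd
          show Function.update (u n) (r n) none d = some v
          rw [Function.update_of_ne hdr]
          exact (h2 (s n)).ext d v hd
        j := (h5 (s n)).le
        h := fun d => le_max_left _ _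
        B := Finset.subset_insert _ _
        new := by
          intro d v hd1 hd2
          have hd3 : Function.update (u n) (r n) none d = some v := hd2
          have hdr : d ≠ r n := by
            rintro rfl; rw [Function.update_self] at hd3; cases hd3
          rw [Function.update_of_ne hdr] at hd3
          exact (h2 (s n)).new d v hd1 hd3 }
  have hdec : ∀ n, (s (n + 1)).1.1 ≤ (s n).1.1 := by
    intro n
    rw [hs]
    exact (h6 (s n)).trans (hcut n)
  have hdecle : ∀ i m, i ≤ m → (s m).1.1 ≤ (s i).1.1 := fun i m him =>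
    antitone_nat_of_succ_le (f := fun n => (s n).1.1) hdec him
  have hVdec : ∀ i m, i ≤ m → (s m).1.2 ⊆ (s i).1.2 := by
    intro i m him
    induction m, him using Nat.le_induction with
    | base => exact fun _ h => h
    | succ m him ih =>
      rw [hs, h7]
      exact fun z hz => ih hz.1
  -- the relation between stages `i < m`
  have hval : ∀ i m, i < m → Val (cut (u i) (r i) (w i)
      (fun d => max ((s i).1.1.h d) (g (u i) d)) (insert (r i) (s i).1.1.B)
      (hU (s i)) (hR (s i)) (hW (s i))) (u m) := by
    intro i m him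
    have hle : (s m).1.1 ≤ (s (i + 1)).1.1 := hdecle (i + 1) m him
    rw [hs] at hle
    exact (h2 (s m)).mono (hle.trans (h6 (s i)))
  have hrem : ∀ i m, i < m → u m (r i) = none ∧ g (u m) (r i) ≤ w i := by
    intro i m him
    have hmem : u m ∈ (s (i + 1)).1.2 := hVdec (i + 1) m him (h1 (s m))
    rw [hs, h7] at hmem
    exact hmem.2
  have hext : ∀ i m, i < m → ∀ d v, d ≠ r i → u i d = some v → u m d = some v := by
    intro i m him d v hd h
    refine (hval i m him).ext d v ?_
    show Function.update (u i) (r i) none d = some v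
    rw [Function.update_of_ne hd]; exact h
  have hnew : ∀ i m, i < m → ∀ d v, u i d = none → u m d = some v → g (u i) d ≤ v := by
    intro i m him d v h h'
    have h8 : Function.update (u i) (r i) none d = none := by
      by_cases hd : d = r i
      · rw [hd, Function.update_self]
      · rw [Function.update_of_ne hd]; exact h
    have h9 := ((hval i m him).new d v h8 h').2
    exact (le_max_right _ _).trans h9
  -- the types increase
  have hty : ∀ n, n < ty (w n) := by
    intro n
    have hj : ∀ m, m ≤ (s m).1.1.j := by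
      intro m
      induction m with
      | zero => exact Nat.zero_le _
      | succ m ih =>
        have h8 := (h6 (s m)).j
        have h9 := h5 (s m)
        have h10 : (cut (u m) (r m) (w m) (fun d => max ((s m).1.1.h d) (g (u m) d))
          (insert (r m) (s m).1.1.B) (hU (s m)) (hR (s m)) (hW (s m))).j = ty (w m) := rfl
        have h11 : (s (m + 1)).1.1.j = (F (s m)).1.1.j := by rw [hs]
        have h12 : ty (w m) ≤ (F (s m)).1.1.j := h8
        have h13 : (s m).1.1.j < ty (w m) := h9
        omega
    have := h5 (s n)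
    have h14 : (s n).1.1.j < ty (w n) := this
    have := hj n
    omega
  -- small types do not change
  have hsame : ∀ i m, i < m → ∀ n, n < ty (w i) → val (u m) n = val (u i) n := by
    intro i m him n hn
    by_cases hex : ∃ d, Has (u i) n d
    · obtain ⟨d, v, hd, hv⟩ := hex
      have hdr : d ≠ r i := by
        rintro rfl
        rw [show u i (r i) = some (w i) from hW (s i)] at hd
        obtain rfl : w i = v := by simpa using hd
        omega
      rw [val_eq (hU (s i)).adm hd hv, val_eq (hU (s m)).adm (hext i m him d v hdr hd) hv]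
    · push Not at hex
      have hm : ∀ d, ¬ Has (u m) n d := by
        intro d hd
        have h8 := has_of_ext (hU (s m)).adm (hval i m him).ext n hn d hd
        exact hex d (has_remove.1 h8).1
      rw [val_zero hex, val_zero hm]
  -- the common point
  have hcomp : ∀ i m d v v', u i d = some v → u m d = some v' → v = v' := by
    intro i m d v v' hi hm
    rcases lt_trichotomy i m with h | h | h
    · have hdr : d ≠ r i := by rintro rfl; rw [(hrem i m h).1] at hm; cases hm
      rw [hext i m h d v hdr hi] at hm
      exact Option.some.inj hm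
    · subst h
      rw [hi] at hm
      exact Option.some.inj hm
    · have hdr : d ≠ r m := by rintro rfl; rw [(hrem m i h).1] at hi; cases hi
      rw [hext m i h d v' hdr hm] at hi
      exact (Option.some.inj hi).symm
  obtain ⟨y, hy1, hy2⟩ : ∃ y : PF, (∀ n d v, u n d = some v → y d = some v) ∧
      ∀ d v, y d = some v → ∃ n, u n d = some v := by
    refine ⟨fun d => if h : ∃ v n, u n d = some v then some (Classical.choose h) else none,
      ?_, ?_⟩
    · intro n d v h
      have hex : ∃ v n, u n d = some v := ⟨v, n, h⟩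
      simp only [dif_pos hex]
      obtain ⟨m, hm⟩ := Classical.choose_spec hex
      rw [hcomp m n d _ _ hm h]
    · intro d v h
      by_cases hex : ∃ v n, u n d = some v
      · simp only [dif_pos hex] at h
        obtain ⟨m, hm⟩ := Classical.choose_spec hex
        refine ⟨m, ?_⟩
        rw [hm]; exact h
      · simp only [dif_neg hex] at h
        cases h
  refine ⟨u, fun i => val (u i) i, y, cl, ?_, fun n => ?_, ?_⟩
  · intro i m him
    by_contra hne
    rcases Nat.lt_or_gt_of_ne hne with h | h
    · have h8 := (hrem i m h).1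
      rw [← him, show u i (r i) = some (w i) from hW (s i)] at h8
      cases h8
    · have h8 := (hrem m i h).1
      rw [him, show u m (r m) = some (w m) from hW (s m)] at h8
      cases h8
  · have hmem : u n ∈ (s 0).1.2 := hVdec 0 n (Nat.zero_le n) (h1 (s n))
    exact hmem.2
  · intro n
    refine ⟨hU (s n), ?_, hy1 n, ?_⟩
    · intro i hi
      have h8 : k (u n) ≤ ty (w n) := h4 (s n)
      rcases lt_trichotomy i n with h | h | h
      · exact (hsame i n h i (hty i)).symm
      · subst h; rfl
      · exact hsame n i h i (lt_of_lt_of_le hi h8)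
    · intro d v hd hv
      obtain ⟨m, hm⟩ := hy2 d v hv
      rcases lt_trichotomy n m with h | h | h
      · exact hnew n m h d v hd hm
      · subst h; rw [hd] at hm; cases hm
      · have hdr : d = r m := by
          by_contra hne
          rw [hext m n h d v hne hm] at hd; cases hd
        subst hdr
        rw [show u m (r m) = some (w m) from hW (s m)] at hm
        obtain rfl : w m = v := by simpa using hm
        exact (hrem m n h).2

end Pool.Agent.Helper21.Box
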