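import Mathlib
import Pool.Agent.Helper21.Box.Step
import Pool.Agent.Helper21.Box.Defs

/-!
# `ω^ω × □^ω(ω+1)` is not metacompact
-/

set_option autoImplicit false

namespace Pool.Agent.Helper21.Box

open Set Topology

/-- The box power `□^ω(ω+1)`, where `ω+1` is `ℕ∞` with the order topology. -/
abbrev BoxPow : Type := BoxProd (fun _ : ℕ => ℕ∞)

/-- The point of `ω+1` given by an element of `Option ℕ`. -/
def en : Option ℕ → ℕ∞
  | none => ⊤
  | some v => (v : ℕ∞)

theorem en_some (v : ℕ) : en (some v) = (v : ℕ∞) := rfl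

theorem en_none : en none = ⊤ := rfl

theorem en_inj : Function.Injective en := by
  intro a b h
  rcases a with _ | a <;> rcases b with _ | b
  · rfl
  · rw [en_none, en_some] at h; exact absurd h.symm (ENat.natCast_ne_top b)
  · rw [en_none, en_some] at h; exact absurd h (ENat.natCast_ne_top a)
  · rw [en_some, en_some] at h
    rw [Nat.cast_inj.1 h]

theorem en_surj (x : ℕ∞) : ∃ a, en a = x := by
  by_cases h : x = ⊤
  · exact ⟨none, h.symm⟩
  · obtain ⟨n, hn⟩ := ENat.ne_top_iff_exists.1 h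
    exact ⟨some n, hn⟩

/-- The point of `□^ω(ω+1)` given by a partial function. -/
def pt (u : PF) : BoxPow := fun d => en (u d)

theorem pt_surj (y : BoxPow) : ∃ u, pt u = y := by
  choose u hu using fun d => en_surj (y d)
  exact ⟨u, funext hu⟩

/-- The basic neighbourhood of `u` with bounds `g`. -/
def nb (u : PF) (g : ℕ → ℕ) : Set BoxPow :=
  {y | (∀ d v, u d = some v → y d = (v : ℕ∞)) ∧ ∀ d, u d = none → (g d : ℕ∞) ≤ y d}

theorem isOpen_nb (u : PF) (g : ℕ → ℕ) : IsOpen (nb u g) := by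
  have h : nb u g = {y : BoxPow | ∀ d, y d ∈ ({x | (∀ v, u d = some v → x = (v : ℕ∞)) ∧
      (u d = none → (g d : ℕ∞) ≤ x)} : Set ℕ∞)} := by
    ext y
    constructor
    · intro h d
      exact ⟨fun v hv => h.1 d v hv, fun hd => h.2 d hd⟩
    · intro h
      exact ⟨fun d v hv => (h d).1 v hv, fun d hd => (h d).2 hd⟩
  rw [h]
  apply isOpen_box
  intro d
  rcases hd : u d with _ | v
  · have : {x : ℕ∞ | (∀ v, (none : Option ℕ) = some v → x = (v : ℕ∞)) ∧
        ((none : Option ℕ) = none → (g d : ℕ∞) ≤ x)} = Ici (g d : ℕ∞) := by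
      ext x; simp
    rw [this]
    rcases Nat.eq_zero_or_pos (g d) with h0 | h0
    · rw [h0]; simp
    · obtain ⟨m, hm⟩ := Nat.exists_eq_succ_of_ne_zero h0.ne'
      have : Ici (g d : ℕ∞) = Ioi (m : ℕ∞) := by
        ext x
        rw [mem_Ici, mem_Ioi, hm]
        constructor
        · intro h; exact lt_of_lt_of_le (by exact_mod_cast Nat.lt_succ_self m) h
        · intro h; exact_mod_cast Order.add_one_le_of_lt h
      rw [this]
      exact isOpen_Ioi
  · have : {x : ℕ∞ | (∀ w, (some v : Option ℕ) = some w → x = (w : ℕ∞)) ∧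
        ((some v : Option ℕ) = none → (g d : ℕ∞) ≤ x)} = {(v : ℕ∞)} := by
      ext x
      simp
    rw [this]
    exact ENat.isOpen_singleton (ENat.natCast_ne_top v)

theorem mem_nb_pt {u w : PF} {g : ℕ → ℕ} : pt w ∈ nb u g ↔
    (∀ d v, u d = some v → w d = some v) ∧ ∀ d v, u d = none → w d = some v → g d ≤ v := by
  constructor
  · rintro ⟨h1, h2⟩
    refine ⟨fun d v hv => en_inj (h1 d v hv), fun d v hd hv => ?_⟩
    have := h2 d hd
    unfold pt at this
    rw [hv, en_some] at this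
    exact_mod_cast this
  · rintro ⟨h1, h2⟩
    refine ⟨fun d v hv => ?_, fun d hd => ?_⟩
    · unfold pt; rw [h1 d v hv, en_some]
    · unfold pt
      rcases hw : w d with _ | v
      · rw [en_none]; exact le_top
      · rw [en_some]; exact_mod_cast h2 d v hd hw

/-- Every neighbourhood of a point contains a basic one. -/
theorem exists_nb {O : Set BoxPow} (hO : IsOpen O) {u : PF} (hu : pt u ∈ O) :
    ∃ g : ℕ → ℕ, nb u g ⊆ O := by
  obtain ⟨U, hU, hUO⟩ := exists_box hO hu
  have hex : ∀ d, ∃ n : ℕ, u d = none → ∀ x : ℕ∞, (n : ℕ∞) ≤ x → x ∈ U d := by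
    intro d
    by_cases hd : u d = none
    · have h1 : (⊤ : ℕ∞) ∈ U d := by
        have := (hU d).2
        unfold pt at this
        rwa [hd, en_none] at this
      have h2 : U d ∈ 𝓝 (⊤ : ℕ∞) := (hU d).1.mem_nhds h1
      obtain ⟨l, hl, hl'⟩ := nhds_top_basis.mem_iff.1 h2
      obtain ⟨n, rfl⟩ := ENat.ne_top_iff_exists.1 hl.ne
      refine ⟨n + 1, fun _ x hx => hl' ?_⟩
      rw [mem_Ioi]
      exact lt_of_lt_of_le (by exact_mod_cast Nat.lt_succ_self n) hx
    · exact ⟨0, fun h => absurd h hd⟩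
  choose g hg using hex
  refine ⟨g, fun y hy => hUO ?_⟩
  intro d
  rcases hd : u d with _ | v
  · exact hg d hd _ (hy.2 d hd)
  · have h1 := (hU d).2
    unfold pt at h1
    rw [hd, en_some] at h1
    rw [hy.1 d v hd]; exact h1

/-- Basic neighbourhoods in `ω^ω`. -/
theorem exists_cyl {O : Set (ℕ → ℕ)} (hO : IsOpen O) {a : ℕ → ℕ} (ha : a ∈ O) :
    ∃ k : ℕ, ∀ b : ℕ → ℕ, (∀ i, i < k → b i = a i) → b ∈ O := by
  obtain ⟨I, V, hV, hVO⟩ := isOpen_pi_iff.1 hO a ha
  refine ⟨I.sup id + 1, fun b hb => hVO ?_⟩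
  intro i hi
  have := Finset.le_sup (f := id) (Finset.mem_coe.1 hi)
  simp only [id] at this
  rw [hb i (by omega)]
  exact (hV i (Finset.mem_coe.1 hi)).2

/-- The neighbourhood of a point of the product that decides the types at most `j`. -/
theorem isOpen_cyl (x : ℕ → ℕ) (j : ℕ) : IsOpen {a : ℕ → ℕ | ∀ n, n ≤ j → a n = x n} := by
  have : {a : ℕ → ℕ | ∀ n, n ≤ j → a n = x n} = ⋂ n ∈ Finset.range (j + 1), {a | a n = x n} := by
    ext a
    simp [Nat.lt_succ_iff]
  rw [this]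
  refine isOpen_biInter_finset fun n _ => ?_
  have : Continuous fun a : ℕ → ℕ => a n := continuous_apply n
  exact (isOpen_discrete ({x n} : Set ℕ)).preimage this

/-- The points of the closed discrete set. -/
noncomputable def cpt (u : {u : PF // Good u}) : (ℕ → ℕ) × BoxPow := (val u.1, pt u.1)

/-- The set of all `cpt u` is closed and discrete. -/
theorem cpt_discrete (z : (ℕ → ℕ) × BoxPow) : ∃ U : Set ((ℕ → ℕ) × BoxPow), IsOpen U ∧ z ∈ U ∧
    ∀ i j, cpt i ∈ U → cpt j ∈ U → i = j := by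
  obtain ⟨x, y'⟩ := z
  obtain ⟨y, rfl⟩ := pt_surj y'
  let N : ℕ → Set ((ℕ → ℕ) × BoxPow) := fun j =>
    {a : ℕ → ℕ | ∀ n, n ≤ j → a n = x n} ×ˢ
      nb y (fun _ => (Finset.range (j + 1)).sup x + 1)
  have hNo : ∀ j, IsOpen (N j) := fun j => (isOpen_cyl x j).prod (isOpen_nb _ _)
  have hNm : ∀ j, (x, pt y) ∈ N j := by
    intro j
    refine ⟨fun n _ => rfl, ?_⟩
    rw [mem_nb_pt]
    exact ⟨fun d v h => h, fun d v h h' => by rw [h] at h'; cases h'⟩
  have hext : ∀ j u, cpt u ∈ N j → ∀ d v, y d = some v → u.1 d = some v := by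
    intro j u hu
    exact (mem_nb_pt.1 hu.2).1
  have hdec : ∀ j u, cpt u ∈ N j → ∀ n, n ≤ j → ∀ d, Has u.1 n d → Has y n d := by
    intro j u hu n hn d hd
    obtain ⟨v, hv, hvn⟩ := hd
    rcases hy : y d with _ | w
    · have h1 := (mem_nb_pt.1 hu.2).2 d v hy hv
      have h2 : val u.1 n = x n := hu.1 n hn
      rw [val_eq u.2.adm hv hvn] at h2
      have h3 : x n ≤ (Finset.range (j + 1)).sup x :=
        Finset.le_sup (Finset.mem_range.2 (Nat.lt_succ_of_le hn))
      have h1' : (Finset.range (j + 1)).sup x + 1 ≤ v := h1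
      omega
    · have := hext j u hu d w hy
      rw [this] at hv
      obtain rfl : w = v := by simpa using hv
      exact ⟨w, hy, hvn⟩
  by_cases hall : ∀ j, ∃ u, cpt u ∈ N j
  · have hadm : Adm y := by
      refine ⟨?_, ?_⟩
      · intro n d e h1 h2
        obtain ⟨u, hu⟩ := hall n
        exact u.2.adm.uniq n d e (h1.mono (hext n u hu)) (h2.mono (hext n u hu))
      · intro n d h1
        obtain ⟨u, hu⟩ := hall n
        rcases u.2.adm.act n d (h1.mono (hext n u hu)) with h0 | ⟨e, he, ht⟩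
        · exact Or.inl h0
        · exact Or.inr ⟨e, hdec n u hu _ (Nat.unpair_left_le n) e he, ht⟩
    have hcomp : Complete y := by
      intro n hn
      obtain ⟨u, hu⟩ := hall n
      obtain ⟨d, hd⟩ := u.2.complete n (hn.mono (hext n u hu))
      exact ⟨d, hdec n u hu n le_rfl d hd⟩
    refine ⟨N 0, hNo 0, hNm 0, ?_⟩
    intro u w hu hw
    apply Subtype.ext
    rw [eq_of_complete hcomp u.2.adm (hext 0 u hu), eq_of_complete hcomp w.2.adm (hext 0 w hw)]
  · push Not at hall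
    obtain ⟨j, hj⟩ := hall
    exact ⟨N j, hNo j, hNm j, fun u w hu _ => absurd hu (hj u)⟩

open Classical in
theorem not_sigma_prod : ¬ SigmaMetacompact ((ℕ → ℕ) × BoxPow) := by
  intro hM
  obtain ⟨W, ν, hW, hfin⟩ := exists_pointFinite hM cpt cpt_discrete
  have hex : ∀ u : PF, ∃ (k : ℕ) (g : ℕ → ℕ), ∀ hu : Good u, ∀ (a : ℕ → ℕ) (w : PF),
      (∀ i, i < k → a i = val u i) → pt w ∈ nb u g → (a, pt w) ∈ W ⟨u, hu⟩ := by
    intro u
    by_cases hu : Good u
    · obtain ⟨O1, O2, h1, h2, h3, h4, h5⟩ := isOpen_prod_iff.1 (hW ⟨u, hu⟩).1 _ _ (hW ⟨u, hu⟩).2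
      obtain ⟨k, hk⟩ := exists_cyl h1 h3
      obtain ⟨g, hg⟩ := exists_nb h2 h4
      exact ⟨k, g, fun _ a w ha hw => h5 ⟨hk a ha, hg hw⟩⟩
    · exact ⟨0, fun _ => 0, fun h => absurd h hu⟩
  choose k g hkg using hex
  obtain ⟨u, x, y, m, hinj, hν, hcore⟩ :=
    core (fun u => if h : Good u then ν ⟨u, h⟩ else 0) k g
  have hmem : ∀ n, (x, pt y) ∈ W ⟨u n, (hcore n).1⟩ := by
    intro n
    refine hkg (u n) (hcore n).1 x y (hcore n).2.1 ?_
    rw [mem_nb_pt]
    exact (hcore n).2.2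
  have hinf : (Set.range fun n => (⟨u n, (hcore n).1⟩ : {u : PF // Good u})).Infinite := by
    apply Set.infinite_range_of_injective
    intro i m him
    exact hinj (congrArg Subtype.val him)
  refine hinf ((hfin m (x, pt y)).subset ?_)
  rintro _ ⟨n, rfl⟩
  refine ⟨?_, hmem n⟩
  have := hν n
  rw [dif_pos (hcore n).1] at this
  exact this

/-- The union of the sets `{y | y extends u}` over all good `u`. -/
def openPart : Set BoxPow := {y | ∃ u : PF, Good u ∧ ∀ d v, u d = some v → y d = (v : ℕ∞)}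

theorem isOpen_openPart : IsOpen openPart := by
  have : openPart = ⋃ u : {u : PF // Good u}, nb u.1 (fun _ => 0) := by
    ext y
    simp only [openPart, nb, mem_ofPred_eq, mem_iUnion, Subtype.exists, exists_prop]
    constructor
    · rintro ⟨u, hu, h⟩
      exact ⟨u, hu, h, fun d _ => by simp⟩
    · rintro ⟨u, hu, h, _⟩
      exact ⟨u, hu, h⟩
  rw [this]
  exact isOpen_iUnion fun u => isOpen_nb _ _

open Classical in
theorem not_sigma_openPart : ¬ SigmaMetacompact openPart := by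
  intro hM
  let c : {u : PF // Good u} → openPart := fun u =>
    ⟨pt u.1, u.1, u.2, fun d v h => by unfold pt; rw [h, en_some]⟩
  obtain ⟨W, ν, hW, hfin⟩ := exists_pointFinite hM c (by
    rintro ⟨y', hy'⟩
    obtain ⟨y, rfl⟩ := pt_surj y'
    obtain ⟨u, hu, huy⟩ := hy'
    have huy' : ∀ d v, u d = some v → y d = some v := fun d v h => en_inj (huy d v h)
    refine ⟨Subtype.val ⁻¹' nb y (fun _ => 0), (isOpen_nb _ _).preimage continuous_subtype_val, ?_,
      ?_⟩
    · show pt y ∈ nb y (fun _ => 0)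
      rw [mem_nb_pt]
      exact ⟨fun d v h => h, fun _ _ _ _ => Nat.zero_le _⟩
    · intro v w hv hw
      have hv' : pt v.1 ∈ nb y (fun _ => 0) := hv
      have hw' : pt w.1 ∈ nb y (fun _ => 0) := hw
      rw [mem_nb_pt] at hv' hw'
      apply Subtype.ext
      rw [eq_of_complete hu.complete v.2.adm fun d a h => hv'.1 d a (huy' d a h),
        eq_of_complete hu.complete w.2.adm fun d a h => hw'.1 d a (huy' d a h)])
  have hex : ∀ u : PF, ∃ (g : ℕ → ℕ), ∀ hu : Good u, ∀ (w : PF) (hw : pt w ∈ openPart),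
      pt w ∈ nb u g → (⟨pt w, hw⟩ : openPart) ∈ W ⟨u, hu⟩ := by
    intro u
    by_cases hu : Good u
    · obtain ⟨O, hO, hOW⟩ := isOpen_induced_iff.1 (hW ⟨u, hu⟩).1
      have h1 : pt u ∈ O := by
        have h2 : c ⟨u, hu⟩ ∈ Subtype.val ⁻¹' O := by rw [hOW]; exact (hW ⟨u, hu⟩).2
        exact h2
      obtain ⟨g, hg⟩ := exists_nb hO h1
      refine ⟨g, fun _ w hw hwg => ?_⟩
      rw [← hOW]
      exact hg hwg
    · exact ⟨fun _ => 0, fun h => absurd h hu⟩
  choose g hg using hex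
  obtain ⟨u, x, y, m, hinj, hν, hcore⟩ :=
    core (fun u => if h : Good u then ν ⟨u, h⟩ else 0) (fun _ => 0) g
  have hy : pt y ∈ openPart := ⟨u 0, (hcore 0).1, fun d v h => by
    unfold pt; rw [(hcore 0).2.2.1 d v h, en_some]⟩
  have hmem : ∀ n, (⟨pt y, hy⟩ : openPart) ∈ W ⟨u n, (hcore n).1⟩ := by
    intro n
    refine hg (u n) (hcore n).1 y hy ?_
    rw [mem_nb_pt]
    exact (hcore n).2.2
  have hinf : (Set.range fun n => (⟨u n, (hcore n).1⟩ : {u : PF // Good u})).Infinite := by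
    apply Set.infinite_range_of_injective
    intro i m him
    exact hinj (congrArg Subtype.val him)
  refine hinf ((hfin m ⟨pt y, hy⟩).subset ?_)
  rintro _ ⟨n, rfl⟩
  refine ⟨?_, hmem n⟩
  have := hν n
  rw [dif_pos (hcore n).1] at this
  exact this

end Pool.Agent.Helper21.Box
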