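import Mathlib
import Pool.Agent.Helper21.Box.Topo

/-!
# Box products that contain `ω^ω × □^ω(ω+1)` as a closed subspace
-/

set_option autoImplicit false

namespace Pool.Agent.Helper21.Box

open Set Topology

universe a b

/-- The property passes to closed subspaces. -/
theorem SigmaMetacompact.of_closedEmbedding {X : Type a} {Y : Type b} [TopologicalSpace X]
    [TopologicalSpace Y] (hY : SigmaMetacompact Y) {f : X → Y} (hf : IsClosedEmbedding f) :
    SigmaMetacompact X := by
  intro 𝒰 hU hcov
  obtain ⟨𝒱, h1, h2, h3, h4⟩ := hY ({O | IsOpen O ∧ f ⁻¹' O ∈ 𝒰} ∪ {(range f)ᶜ}) (by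
    rintro O (hO | hO)
    · exact hO.1
    · rw [hO]; exact hf.isClosed_range.isOpen_compl) (by
    apply eq_univ_of_forall
    intro y
    by_cases hy : y ∈ range f
    · obtain ⟨x, rfl⟩ := hy
      have hx : x ∈ ⋃₀ 𝒰 := by rw [hcov]; exact mem_univ _
      obtain ⟨U, hUm, hxU⟩ := hx
      obtain ⟨O, hO, hOU⟩ := hf.isInducing.isOpen_iff.1 (hU U hUm)
      refine ⟨O, Or.inl ⟨hO, by rw [hOU]; exact hUm⟩, ?_⟩
      rw [← hOU] at hxU
      exact hxU
    · exact ⟨(range f)ᶜ, Or.inr rfl, hy⟩)
  refine ⟨fun n => {S | ∃ V ∈ 𝒱 n, S = f ⁻¹' V ∧ ∃ U ∈ 𝒰, S ⊆ U}, ?_, ?_, ?_, ?_⟩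
  · rintro n S ⟨V, hV, rfl, _⟩
    exact (h1 n V hV).preimage hf.continuous
  · apply eq_univ_of_forall
    intro x
    have hx : f x ∈ ⋃ n, ⋃₀ 𝒱 n := by rw [h2]; exact mem_univ _
    obtain ⟨n, V, hV, hxV⟩ := mem_iUnion.1 hx
    obtain ⟨O, hO, hVO⟩ := h3 n V hV
    rcases hO with hO | hO
    · exact mem_iUnion.2 ⟨n, f ⁻¹' V, ⟨V, hV, rfl, _, hO.2, preimage_mono hVO⟩, hxV⟩
    · rw [hO] at hVO
      exact absurd (mem_range_self x) (hVO hxV)
  · rintro n S ⟨V, hV, rfl, hS⟩
    exact hS
  · intro n x
    refine ((h4 n (f x)).image (fun V => f ⁻¹' V)).subset ?_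
    rintro S ⟨⟨V, hV, rfl, _⟩, hx⟩
    exact ⟨V, ⟨hV, hx⟩, rfl⟩

theorem exists_family {ι : Type a} {Y : ι → Type b} {j : ℕ → ι} (hj : Function.Injective j)
    (s : ∀ n, Y (j n)) (c : ∀ i, Y i) :
    ∃ t : ∀ i, Y i, (∀ n, t (j n) = s n) ∧ ∀ i, i ∉ range j → t i = c i := by
  classical
  refine ⟨fun i => if h : ∃ n, j n = i then Classical.choose_spec h ▸ s (Classical.choose h)
    else c i, ?_, ?_⟩
  · intro n
    have hex : ∃ m, j m = j n := ⟨n, rfl⟩
    have key : ∀ (m : ℕ) (h : j m = j n), (h ▸ s m : Y (j n)) = s n := by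
      intro m h
      obtain rfl := hj h
      rfl
    simp only [dif_pos hex]
    exact key _ _
  · intro i hi
    have hno : ¬ ∃ n, j n = i := hi
    simp only [dif_neg hno]

/-- If `Y (j 0)` contains a closed copy of `ω^ω`, every `Y (j (n+1))` contains a closed copy of
`ω+1`, and the other factors have a closed point, then the box product of the `Y i` contains a
closed copy of `ω^ω × □^ω(ω+1)`. -/
theorem exists_closedEmbedding {ι : Type a} (Y : ι → Type b) [∀ i, TopologicalSpace (Y i)]
    {j : ℕ → ι} (hj : Function.Injective j) {e0 : (ℕ → ℕ) → Y (j 0)}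
    (he0 : IsClosedEmbedding e0) {e : ∀ n, ℕ∞ → Y (j (n + 1))}
    (he : ∀ n, IsClosedEmbedding (e n)) (c : ∀ i, Y i)
    (hc : ∀ i, i ∉ range j → IsClosed ({c i} : Set (Y i))) :
    ∃ F : (ℕ → ℕ) × BoxPow → BoxProd Y, IsClosedEmbedding F := by
  classical
  have hex : ∀ z : (ℕ → ℕ) × BoxPow, ∃ t : ∀ i, Y i, (t (j 0) = e0 z.1) ∧
      (∀ n, t (j (n + 1)) = e n (z.2 n)) ∧ ∀ i, i ∉ range j → t i = c i := by
    intro z
    obtain ⟨t, h1, h2⟩ := exists_family (Y := Y) hj
      (fun n => match n with
        | 0 => e0 z.1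
        | n + 1 => e n (z.2 n)) c
    exact ⟨t, h1 0, fun n => h1 (n + 1), h2⟩
  choose F hF0 hF1 hF2 using hex
  let G : (ℕ → ℕ) × BoxPow → BoxProd Y := F
  -- open boxes with prescribed factors
  have hbox : ∀ (U0 : Set (Y (j 0))) (U : ∀ n, Set (Y (j (n + 1)))) (W : ∀ i, Set (Y i)),
      IsOpen U0 → (∀ n, IsOpen (U n)) → (∀ i, IsOpen (W i)) →
      ∃ V : ∀ i, Set (Y i), (∀ i, IsOpen (V i)) ∧ V (j 0) = U0 ∧ (∀ n, V (j (n + 1)) = U n) ∧
        ∀ i, i ∉ range j → V i = W i := by
    intro U0 U W h0 h1 h2
    obtain ⟨V, hV1, hV2⟩ := exists_family (Y := fun i => Set (Y i)) hj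
      (fun n => match n with
        | 0 => U0
        | n + 1 => U n) W
    refine ⟨V, ?_, hV1 0, fun n => hV1 (n + 1), hV2⟩
    intro i
    by_cases hi : i ∈ range j
    · obtain ⟨n, rfl⟩ := hi
      cases n with
      | zero => have := hV1 0; rw [this]; exact h0
      | succ n => have := hV1 (n + 1); rw [this]; exact h1 n
    · rw [hV2 i hi]; exact h2 i
  have hcases : ∀ (P : ι → Prop), P (j 0) → (∀ n, P (j (n + 1))) → (∀ i, i ∉ range j → P i) →
      ∀ i, P i := by
    intro P h0 h1 h2 i
    by_cases hi : i ∈ range j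
    · obtain ⟨n, rfl⟩ := hi
      cases n with
      | zero => exact h0
      | succ n => exact h1 n
    · exact h2 i hi
  have hcont : Continuous G := by
    refine continuous_generateFrom_iff.2 ?_
    rintro s ⟨U, hU, rfl⟩
    by_cases hcU : ∀ i, i ∉ range j → c i ∈ U i
    · have : G ⁻¹' {x | ∀ i, x i ∈ U i} =
          (e0 ⁻¹' U (j 0)) ×ˢ {y : BoxPow | ∀ n, y n ∈ e n ⁻¹' U (j (n + 1))} := by
        ext z
        constructor
        · intro hz
          refine ⟨?_, fun n => ?_⟩
          · have := hz (j 0)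
            show e0 z.1 ∈ U (j 0)
            rw [← hF0 z]; exact this
          · have := hz (j (n + 1))
            show e n (z.2 n) ∈ U (j (n + 1))
            rw [← hF1 z n]; exact this
        · rintro ⟨h0, h1⟩
          refine hcases (fun i => F z i ∈ U i) ?_ ?_ ?_
          · rw [hF0 z]; exact h0
          · intro n; rw [hF1 z n]; exact h1 n
          · intro i hi; rw [hF2 z i hi]; exact hcU i hi
      rw [this]
      exact ((hU _).preimage he0.continuous).prod
        (isOpen_box fun n => (hU _).preimage (he n).continuous)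
    · push Not at hcU
      obtain ⟨i, hi, hci⟩ := hcU
      have : G ⁻¹' {x | ∀ i, x i ∈ U i} = ∅ := by
        apply eq_empty_of_forall_notMem
        intro z hz
        have := hz i
        apply hci
        rw [← hF2 z i hi]; exact this
      rw [this]; exact isOpen_empty
  have hinj : Function.Injective G := by
    intro z z' h
    have h' : F z = F z' := h
    apply Prod.ext
    · apply he0.injective
      rw [← hF0 z, ← hF0 z', h']
    · funext n
      apply (he n).injective
      rw [← hF1 z n, ← hF1 z' n, h']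
  have hind : IsInducing G := by
    rw [isInducing_iff_nhds]
    intro z
    refine le_antisymm (hcont.tendsto z).le_comap ?_
    intro s hs
    rw [Filter.mem_comap]
    obtain ⟨O, hOs, hO, hzO⟩ := mem_nhds_iff.1 hs
    obtain ⟨O1, O2, h1, h2, h3, h4, h5⟩ := isOpen_prod_iff.1 hO z.1 z.2 hzO
    obtain ⟨U, hU, hUO⟩ := exists_box h2 h4
    obtain ⟨W0, hW0, hW0'⟩ := he0.isInducing.isOpen_iff.1 h1
    have hW : ∀ n, ∃ W, IsOpen W ∧ e n ⁻¹' W = U n := fun n =>
      (he n).isInducing.isOpen_iff.1 (hU n).1
    choose W hW1 hW2 using hW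
    obtain ⟨V, hV, hV0, hV1, hV2⟩ := hbox W0 W (fun _ => univ) hW0 hW1 (fun _ => isOpen_univ)
    refine ⟨{x | ∀ i, x i ∈ V i}, ?_, ?_⟩
    · refine (isOpen_box hV).mem_nhds ?_
      refine hcases (fun i => F z i ∈ V i) ?_ ?_ ?_
      · rw [hF0 z, hV0]
        have : z.1 ∈ e0 ⁻¹' W0 := by rw [hW0']; exact h3
        exact this
      · intro n
        rw [hF1 z n, hV1 n]
        have : z.2 n ∈ e n ⁻¹' W n := by rw [hW2 n]; exact (hU n).2
        exact this
      · intro i hi
        rw [hV2 i hi]; exact mem_univ _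
    · intro z' hz'
      apply hOs
      apply h5
      refine ⟨?_, hUO fun n => ?_⟩
      · have := hz' (j 0)
        rw [hV0] at this
        have h6 : z'.1 ∈ e0 ⁻¹' W0 := by
          show e0 z'.1 ∈ W0
          rw [← hF0 z']; exact this
        rw [hW0'] at h6; exact h6
      · have := hz' (j (n + 1))
        rw [hV1 n] at this
        have h6 : z'.2 n ∈ e n ⁻¹' W n := by
          show e n (z'.2 n) ∈ W n
          rw [← hF1 z' n]; exact this
        rw [hW2 n] at h6; exact h6
  refine ⟨G, ⟨hind, hinj⟩, ?_⟩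
  -- the range is closed
  rw [← isOpen_compl_iff, isOpen_iff_forall_mem_open]
  intro w hw
  by_cases h0 : w (j 0) ∈ range e0
  · by_cases h1 : ∀ n, w (j (n + 1)) ∈ range (e n)
    · by_cases h2 : ∀ i, i ∉ range j → w i = c i
      · exfalso
        obtain ⟨x, hx⟩ := h0
        choose y hy using h1
        apply hw
        refine ⟨(x, y), funext ?_⟩
        refine hcases (fun i => F (x, y) i = w i) ?_ ?_ ?_
        · rw [hF0]; exact hx
        · intro n; rw [hF1]; exact hy n
        · intro i hi; rw [hF2 _ i hi]; exact (h2 i hi).symm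
      · push Not at h2
        obtain ⟨i, hi, hne⟩ := h2
        obtain ⟨V, hV, hV0, hV1, hV2⟩ := hbox univ (fun _ => univ)
          (fun i => if hi : i ∉ range j then ({c i} : Set (Y i))ᶜ else univ) isOpen_univ
          (fun _ => isOpen_univ) (by
            intro i
            by_cases hi : i ∉ range j
            · simp only [dif_pos hi]
              exact (hc i hi).isOpen_compl
            · simp only [dif_neg hi]
              exact isOpen_univ)
        refine ⟨{x | ∀ k, k = i → x k ∈ V k}, ?_, ?_, ?_⟩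
        · rintro _ hx ⟨z, rfl⟩
          have := hx i rfl
          rw [hV2 i hi] at this
          simp only [dif_pos hi] at this
          exact this (hF2 z i hi)
        · have : {x : BoxProd Y | ∀ k, k = i → x k ∈ V k} =
              {x : BoxProd Y | ∀ k, x k ∈ ({t | k = i → t ∈ V k} : Set (Y k))} := rfl
          rw [this]
          apply isOpen_box
          intro k
          by_cases hk : k = i
          · have : ({t | k = i → t ∈ V k} : Set (Y k)) = V k := by
              ext t; simp [hk]
            rw [this]; exact hV k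
          · have : ({t | k = i → t ∈ V k} : Set (Y k)) = univ := by
              ext t; simp [hk]
            rw [this]; exact isOpen_univ
        · rintro k rfl
          rw [hV2 k hi]
          simp only [dif_pos hi]
          exact hne
    · push Not at h1
      obtain ⟨n, hn⟩ := h1
      obtain ⟨V, hV, hV0, hV1, hV2⟩ := hbox univ
        (fun m => if m = n then (range (e m))ᶜ else univ)
        (fun _ => univ) isOpen_univ (by
          intro m
          by_cases hm : m = n
          · simp only [if_pos hm]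
            exact (he m).isClosed_range.isOpen_compl
          · simp only [if_neg hm]
            exact isOpen_univ) (fun _ => isOpen_univ)
      refine ⟨{x | ∀ i, x i ∈ V i}, ?_, isOpen_box hV, ?_⟩
      · rintro _ hx ⟨z, rfl⟩
        have := hx (j (n + 1))
        rw [hV1 n] at this
        simp only [if_true] at this
        apply this
        have h8 : G z (j (n + 1)) = e n (z.2 n) := hF1 z n
        rw [h8]
        exact mem_range_self _
      · refine hcases (fun i => w i ∈ V i) ?_ ?_ ?_
        · rw [hV0]; exact mem_univ _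
        · intro m
          rw [hV1 m]
          by_cases hm : m = n
          · subst hm
            simp only [if_true]
            exact hn
          · simp only [if_neg hm]
            exact mem_univ _
        · intro i hi
          rw [hV2 i hi]; exact mem_univ _
  · obtain ⟨V, hV, hV0, hV1, hV2⟩ := hbox (range e0)ᶜ (fun _ => univ) (fun _ => univ)
      he0.isClosed_range.isOpen_compl (fun _ => isOpen_univ) (fun _ => isOpen_univ)
    refine ⟨{x | ∀ i, x i ∈ V i}, ?_, isOpen_box hV, ?_⟩
    · rintro _ hx ⟨z, rfl⟩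
      have := hx (j 0)
      rw [hV0] at this
      apply this
      have h8 : G z (j 0) = e0 z.1 := hF0 z
      rw [h8]
      exact mem_range_self _
    · refine hcases (fun i => w i ∈ V i) ?_ ?_ ?_
      · rw [hV0]; exact h0
      · intro m; rw [hV1 m]; exact mem_univ _
      · intro i hi; rw [hV2 i hi]; exact mem_univ _

/-- Box products with a factor that contains a closed copy of `ω^ω` and infinitely many other
factors that contain a closed copy of `ω+1` do not have the property. -/
theorem not_sigma_box {ι : Type a} (Y : ι → Type b) [∀ i, TopologicalSpace (Y i)]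
    {j : ℕ → ι} (hj : Function.Injective j) {e0 : (ℕ → ℕ) → Y (j 0)}
    (he0 : IsClosedEmbedding e0) {e : ∀ n, ℕ∞ → Y (j (n + 1))}
    (he : ∀ n, IsClosedEmbedding (e n)) (c : ∀ i, Y i)
    (hc : ∀ i, i ∉ range j → IsClosed ({c i} : Set (Y i))) : ¬ SigmaMetacompact (BoxProd Y) := by
  intro hM
  obtain ⟨F, hF⟩ := exists_closedEmbedding Y hj he0 he c hc
  exact not_sigma_prod (hM.of_closedEmbedding hF)

/-- `ω+1` as a closed subspace of `ω^ω`. -/
theorem exists_enat_embedding : ∃ e : ℕ∞ → (ℕ → ℕ), IsClosedEmbedding e := by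
  classical
  refine ⟨fun v i => if v ≤ (i : ℕ∞) then 1 else 0, ?_⟩
  apply Continuous.isClosedEmbedding
  · refine continuous_pi fun i => ?_
    have hcl : IsClopen {v : ℕ∞ | v ≤ (i : ℕ∞)} := by
      refine ⟨isClosed_Iic, ?_⟩
      have : {v : ℕ∞ | v ≤ (i : ℕ∞)} = Iio ((i : ℕ∞) + 1) := by
        ext v
        rw [mem_Iio]
        exact (ENat.lt_add_one_iff (ENat.natCast_ne_top i)).symm
      rw [this]
      exact isOpen_Iio
    exact continuous_const.if (fun v hv => absurd hv (by
      have := hcl.frontier_eq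
      rw [this]; exact notMem_empty v)) continuous_const
  · intro v w h
    have key : ∀ i : ℕ, (v ≤ (i : ℕ∞) ↔ w ≤ (i : ℕ∞)) := by
      intro i
      have h3 : (if v ≤ (i : ℕ∞) then 1 else 0) = (if w ≤ (i : ℕ∞) then 1 else 0) :=
        congrFun h i
      by_cases h1 : v ≤ (i : ℕ∞)
      · by_cases h2 : w ≤ (i : ℕ∞)
        · exact iff_of_true h1 h2
        · rw [if_pos h1, if_neg h2] at h3; omega
      · by_cases h2 : w ≤ (i : ℕ∞)
        · rw [if_neg h1, if_pos h2] at h3; omega
        · exact iff_of_false h1 h2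
    apply le_antisymm
    · rcases eq_or_ne w ⊤ with rfl | hw
      · exact le_top
      · obtain ⟨n, rfl⟩ := ENat.ne_top_iff_exists.1 hw
        exact (key n).2 le_rfl
    · rcases eq_or_ne v ⊤ with rfl | hv
      · exact le_top
      · obtain ⟨n, rfl⟩ := ENat.ne_top_iff_exists.1 hv
        exact (key n).1 le_rfl

end Pool.Agent.Helper21.Box
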