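import Mathlib
import Pool.Agent.Helper21.Box.Embed

/-!
# Box products of metrizable spaces that are not metacompact
-/

set_option autoImplicit false

namespace Pool.Agent.Helper21.Box

open Set Topology Filter

universe a b

/-- A metrizable space that is not discrete contains a closed copy of `ω+1`. -/
theorem exists_enat_closedEmbedding {Y : Type b} [TopologicalSpace Y]
    [TopologicalSpace.MetrizableSpace Y] (h : ¬ DiscreteTopology Y) :
    ∃ e : ℕ∞ → Y, IsClosedEmbedding e := by
  let _ : MetricSpace Y := TopologicalSpace.metrizableSpaceMetric Y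
  have hp : ∃ p : Y, ¬ IsOpen ({p} : Set Y) := by
    by_contra hno
    push Not at hno
    exact h (discreteTopology_iff_isOpen_singleton.2 hno)
  obtain ⟨p, hp⟩ := hp
  have hex : ∀ r : ℝ, 0 < r → ∃ y : Y, 0 < dist y p ∧ dist y p < r := by
    intro r hr
    by_contra hno
    push Not at hno
    apply hp
    rw [Metric.isOpen_iff]
    rintro x hx
    rw [mem_singleton_iff] at hx
    subst hx
    refine ⟨r, hr, fun y hy => ?_⟩
    by_contra hne
    have h1 : 0 < dist y x := dist_pos.2 hne
    exact absurd (Metric.mem_ball.1 hy) (not_lt.2 (hno y h1))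
  have hstep : ∀ (n : ℕ) (y : {y : Y // 0 < dist y p}), ∃ z : {y : Y // 0 < dist y p},
      dist z.1 p < dist y.1 p ∧ dist z.1 p < 1 / ((n : ℝ) + 1) := by
    rintro n ⟨y, hy⟩
    obtain ⟨z, hz1, hz2⟩ := hex (min (dist y p) (1 / ((n : ℝ) + 1)))
      (lt_min hy (by positivity))
    exact ⟨⟨z, hz1⟩, lt_of_lt_of_le hz2 (min_le_left _ _), lt_of_lt_of_le hz2 (min_le_right _ _)⟩
  choose f hf1 hf2 using hstep
  obtain ⟨y0, hy0, _⟩ := hex 1 one_pos
  let s : ℕ → {y : Y // 0 < dist y p} := fun n => Nat.rec ⟨y0, hy0⟩ (fun n t => f n t) n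
  have hs : ∀ n, s (n + 1) = f n (s n) := fun n => rfl
  have hanti : StrictAnti fun n => dist (s n).1 p := by
    apply strictAnti_nat_of_succ_lt
    intro n
    rw [hs]; exact hf1 n (s n)
  have hlim : Tendsto (fun n => (s n).1) atTop (𝓝 p) := by
    rw [tendsto_iff_dist_tendsto_zero, ← tendsto_add_atTop_iff_nat 1]
    refine squeeze_zero (fun n => dist_nonneg) (fun n => ?_) tendsto_one_div_add_atTop_nhds_zero_nat
    rw [hs]; exact (hf2 n (s n)).le
  let e : ℕ∞ → Y := fun v => if v = ⊤ then p else (s v.toNat).1
  have het : e ⊤ = p := by simp [e]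
  have hen : ∀ n : ℕ, e (n : ℕ∞) = (s n).1 := by
    intro n
    simp [e]
  refine ⟨e, Continuous.isClosedEmbedding ?_ ?_⟩
  · rw [continuous_iff_continuousAt]
    intro v
    by_cases hv : v = ⊤
    · subst hv
      rw [ContinuousAt, het]
      intro U hU
      rw [mem_map]
      obtain ⟨N, hN⟩ := mem_atTop_sets.1 (hlim hU)
      have h1 : Ioi ((N : ℕ∞)) ∈ 𝓝 (⊤ : ℕ∞) := isOpen_Ioi.mem_nhds (by
        rw [mem_Ioi]; exact ENat.natCast_lt_top N)
      refine Filter.mem_of_superset h1 ?_
      intro w hw
      by_cases hwt : w = ⊤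
      · subst hwt
        show e ⊤ ∈ U
        rw [het]; exact mem_of_mem_nhds hU
      · obtain ⟨n, rfl⟩ := ENat.ne_top_iff_exists.1 hwt
        show e (n : ℕ∞) ∈ U
        rw [hen]
        apply hN
        rw [mem_Ioi] at hw
        have : N < n := by exact_mod_cast hw
        exact this.le
    · rw [ContinuousAt, ENat.nhds_eq_pure hv]
      exact tendsto_pure_nhds e v
  · intro v w hvw
    by_cases hv : v = ⊤
    · by_cases hw : w = ⊤
      · rw [hv, hw]
      · obtain ⟨n, rfl⟩ := ENat.ne_top_iff_exists.1 hw
        rw [hv, het, hen] at hvw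
        have := (s n).2
        rw [← hvw, dist_self] at this
        exact absurd this (lt_irrefl _)
    · obtain ⟨m, rfl⟩ := ENat.ne_top_iff_exists.1 hv
      by_cases hw : w = ⊤
      · rw [hw, het, hen] at hvw
        have := (s m).2
        rw [hvw, dist_self] at this
        exact absurd this (lt_irrefl _)
      · obtain ⟨n, rfl⟩ := ENat.ne_top_iff_exists.1 hw
        rw [hen, hen] at hvw
        have : m = n := hanti.injective (by
          show dist (s m).1 p = dist (s n).1 p
          rw [hvw])
        rw [this]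

/-- Box products of metrizable spaces with infinitely many factors that are not discrete and a
factor that contains a closed copy of the irrationals do not have the property. -/
theorem not_sigma_of_metrizable {ι : Type a} (Y : ι → Type b)
    [∀ i, TopologicalSpace (Y i)] [∀ i, TopologicalSpace.MetrizableSpace (Y i)]
    [∀ i, Nonempty (Y i)] (i₀ : ι) (h₀ : ∃ e : (ℕ → ℕ) → Y i₀, IsClosedEmbedding e)
    (hinf : {i | ¬ DiscreteTopology (Y i)}.Infinite) : ¬ SigmaMetacompact (BoxProd Y) := by
  classical
  obtain ⟨e0, he0⟩ := h₀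
  have hinf' : ({i | ¬ DiscreteTopology (Y i)} \ {i₀}).Infinite :=
    hinf.sdiff (finite_singleton i₀)
  let m := hinf'.natEmbedding
  let j : ℕ → ι := fun n => match n with
    | 0 => i₀
    | n + 1 => (m n).1
  have hm : ∀ n, ¬ DiscreteTopology (Y (j (n + 1))) := fun n => (m n).2.1
  have hm0 : ∀ n, j (n + 1) ≠ i₀ := fun n => (m n).2.2
  have hj : Function.Injective j := by
    intro p q hpq
    cases p with
    | zero =>
      cases q with
      | zero => rfl
      | succ q => exact absurd hpq.symm (hm0 q)
    | succ p =>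
      cases q with
      | zero => exact absurd hpq (hm0 p)
      | succ q =>
        have : m p = m q := Subtype.ext hpq
        rw [m.injective this]
  choose e he using fun n => exists_enat_closedEmbedding (hm n)
  exact not_sigma_box Y hj (e0 := e0) he0 (e := e) he (fun i => Classical.arbitrary _)
    (fun i _ => isClosed_singleton)

end Pool.Agent.Helper21.Box
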